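import Mathlib

set_option autoImplicit false

open MeasureTheory Filter Topology

namespace Pool.Agent.TubeDS

/-- Cauchy estimate for the Fréchet derivative of a bounded holomorphic function. -/
theorem norm_fderiv_le_of_bound {W : Type*} [NormedAddCommGroup W] [NormedSpace ℂ W]
    {f : W → ℂ} {z₀ z : W} {ε C : ℝ} (hε : 0 < ε)
    (hf : DifferentiableOn ℂ f (Metric.ball z₀ ε))
    (hC : ∀ x ∈ Metric.ball z₀ ε, ‖f x‖ ≤ C) (hz : z ∈ Metric.ball z₀ (ε / 2)) :
    ‖fderiv ℂ f z‖ ≤ C / (ε / 4) := by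
  have hC0 : 0 ≤ C := le_trans (norm_nonneg _) (hC z (Metric.ball_subset_ball (by linarith) hz))
  refine ContinuousLinearMap.opNorm_le_bound _ (by positivity) ?_
  intro v
  by_cases hv : v = 0
  · simp [hv]
  have hvn : 0 < ‖v‖ := norm_pos_iff.mpr hv
  set R : ℝ := (ε / 4) / ‖v‖ with hR
  have hRpos : 0 < R := by positivity
  have hmem : ∀ t : ℂ, t ∈ Metric.closedBall (0 : ℂ) R → z + t • v ∈ Metric.ball z₀ ε := by
    intro t ht
    rw [Metric.mem_ball] at hz ⊢
    rw [mem_closedBall_zero_iff] at ht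
    have h1 : dist (z + t • v) z₀ ≤ dist (z + t • v) z + dist z z₀ := dist_triangle _ _ _
    have h2 : dist (z + t • v) z = ‖t‖ * ‖v‖ := by
      rw [dist_eq_norm, add_sub_cancel_left, norm_smul]
    have h3 : ‖t‖ * ‖v‖ ≤ ε / 4 := by
      calc ‖t‖ * ‖v‖ ≤ R * ‖v‖ := by gcongr
        _ = ε / 4 := by rw [hR]; field_simp
    linarith
  have hdiffg : ∀ t ∈ Metric.closedBall (0 : ℂ) R, DifferentiableAt ℂ (fun t : ℂ => f (z + t • v)) t := by
    intro t ht
    have hfa : DifferentiableAt ℂ f (z + t • v) :=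
      hf.differentiableAt (Metric.isOpen_ball.mem_nhds (hmem t ht))
    have hg : DifferentiableAt ℂ (fun t : ℂ => z + t • v) t := by fun_prop
    exact DifferentiableAt.comp t hfa hg
  have hderiv : deriv (fun t : ℂ => f (z + t • v)) 0 = fderiv ℂ f z v := by
    have hfa : DifferentiableAt ℂ f (z + (0 : ℂ) • v) :=
      hf.differentiableAt (Metric.isOpen_ball.mem_nhds (hmem 0 (by simp [hRpos.le])))
    have hfa' : HasFDerivAt f (fderiv ℂ f (z + (0 : ℂ) • v)) (z + (0 : ℂ) • v) := hfa.hasFDerivAt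
    have hg : HasDerivAt (fun t : ℂ => z + t • v) v 0 := by
      have := ((hasDerivAt_id (0 : ℂ)).smul_const v).const_add z
      simpa using this
    have hcd : HasDerivAt (fun t : ℂ => f (z + t • v)) (fderiv ℂ f (z + (0 : ℂ) • v) v) 0 :=
      HasFDerivAt.comp_hasDerivAt (0 : ℂ) hfa' hg
    rw [hcd.deriv]
    simp
  have hcauchy := Complex.norm_deriv_le_of_forall_mem_sphere_norm_le (c := (0 : ℂ)) (R := R) (C := C)
    (f := fun t : ℂ => f (z + t • v)) hRpos
    (by
      apply DifferentiableOn.diffContOnCl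
      intro t ht
      rw [closure_ball _ hRpos.ne'] at ht
      exact (hdiffg t ht).differentiableWithinAt)
    (fun t ht => hC _ (hmem t (Metric.sphere_subset_closedBall ht)))
  rw [hderiv] at hcauchy
  calc ‖fderiv ℂ f z v‖ ≤ C / R := hcauchy
    _ = C / (ε / 4) * ‖v‖ := by rw [hR]; field_simp

/-- A holomorphic integrand dominated locally uniformly has a holomorphic integral. -/
theorem differentiableOn_integral_of_dominated
    {W : Type*} [NormedAddCommGroup W] [NormedSpace ℂ W] [FiniteDimensional ℂ W]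
    {α : Type*} [MeasurableSpace α] {μ : Measure α}
    {U : Set W} (hU : IsOpen U) {f : W → α → ℂ}
    (hmeas : ∀ z ∈ U, AEStronglyMeasurable (f z) μ)
    (hdiff : ∀ a, DifferentiableOn ℂ (fun z => f z a) U)
    (hbound : ∀ z₀ ∈ U, ∃ ε > 0, ∃ b : α → ℝ, Integrable b μ ∧
      ∀ z ∈ Metric.ball z₀ ε, z ∈ U → ∀ a, ‖f z a‖ ≤ b a) :
    DifferentiableOn ℂ (fun z => ∫ a, f z a ∂μ) U := by
  intro z₀ hz₀
  obtain ⟨ε₁, hε₁, b, hb, hfb⟩ := hbound z₀ hz₀
  obtain ⟨ε₂, hε₂, hballU⟩ := Metric.isOpen_iff.mp hU z₀ hz₀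
  set ε := min ε₁ ε₂ with hεdef
  have hε : 0 < ε := lt_min hε₁ hε₂
  have hsub : Metric.ball z₀ ε ⊆ U := (Metric.ball_subset_ball (min_le_right _ _)).trans hballU
  have hfb' : ∀ z ∈ Metric.ball z₀ ε, ∀ a, ‖f z a‖ ≤ b a := fun z hz a =>
    hfb z (Metric.ball_subset_ball (min_le_left _ _) hz) (hsub hz) a
  -- the derivative
  set F' : W → α → W →L[ℂ] ℂ := fun z a => fderiv ℂ (fun z => f z a) z with hF'
  have hF'at : ∀ a, ∀ z ∈ Metric.ball z₀ (ε / 2), HasFDerivAt (fun z => f z a) (F' z a) z := by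
    intro a z hz
    have hzU : z ∈ U := hsub (Metric.ball_subset_ball (by linarith) hz)
    exact ((hdiff a).differentiableAt (hU.mem_nhds hzU)).hasFDerivAt
  have hF'bound : ∀ a, ∀ z ∈ Metric.ball z₀ (ε / 2), ‖F' z a‖ ≤ b a / (ε / 4) := by
    intro a z hz
    exact norm_fderiv_le_of_bound hε ((hdiff a).mono hsub) (fun x hx => hfb' x hx a) hz
  have hmeasF' : AEStronglyMeasurable (F' z₀) μ := by
    let B := Module.finBasis ℂ W
    have hrepr : ∀ a, F' z₀ a = ∑ i, (F' z₀ a (B i)) • (LinearMap.toContinuousLinearMap (B.coord i)) := by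
      intro a
      ext v
      simp only [sum_apply, smul_apply,
        LinearMap.coe_toContinuousLinearMap', Module.Basis.coord_apply, smul_eq_mul]
      conv_lhs => rw [← B.sum_repr v, map_sum]
      refine Finset.sum_congr rfl fun i _ => ?_
      rw [map_smul, smul_eq_mul, mul_comm]
    have hcomp : ∀ v : W, AEStronglyMeasurable (fun a => F' z₀ a v) μ := by
      intro v
      -- difference quotients
      have hmemv : ∀ᶠ n : ℕ in atTop, z₀ + ((n : ℂ) + 1)⁻¹ • v ∈ U := by
        have ht : Tendsto (fun n : ℕ => z₀ + ((n : ℂ) + 1)⁻¹ • v) atTop (𝓝 (z₀ + (0 : ℂ) • v)) := by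
          have h1 : Tendsto (fun n : ℕ => ((n : ℂ) + 1)⁻¹) atTop (𝓝 0) := by
            have := tendsto_one_div_add_atTop_nhds_zero_nat (𝕜 := ℂ)
            simpa [one_div] using this
          exact (tendsto_const_nhds).add (h1.smul_const v)
        rw [zero_smul, add_zero] at ht
        exact ht.eventually (hU.mem_nhds hz₀)
      obtain ⟨N, hN⟩ := Filter.eventually_atTop.mp hmemv
      refine aestronglyMeasurable_of_tendsto_ae (u := atTop)
        (f := fun (n : ℕ) a => ((((n + N : ℕ) : ℂ) + 1)) * (f (z₀ + ((((n + N : ℕ) : ℂ) + 1))⁻¹ • v) a - f z₀ a)) ?_ ?_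
      · intro n
        have h1 := hmeas _ (hN (n + N) (by omega))
        exact (h1.sub (hmeas z₀ hz₀)).const_mul _
      · refine Filter.Eventually.of_forall fun a => ?_
        have hda := hF'at a z₀ (Metric.mem_ball_self (by linarith))
        have hg : HasDerivAt (fun t : ℂ => z₀ + t • v) v 0 := by
          have := ((hasDerivAt_id (0 : ℂ)).smul_const v).const_add z₀
          simpa using this
        have hda' : HasFDerivAt (fun z => f z a) (F' z₀ a) (z₀ + (0 : ℂ) • v) := by simpa using hda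
        have hcd := HasFDerivAt.comp_hasDerivAt (0 : ℂ) hda' hg
        have hslope := hcd.tendsto_slope_zero
        have htend : Tendsto (fun n : ℕ => ((((n + N : ℕ) : ℂ) + 1))⁻¹) atTop (𝓝[≠] 0) := by
          rw [tendsto_nhdsWithin_iff]
          refine ⟨?_, Filter.Eventually.of_forall fun n => ?_⟩
          · have := tendsto_one_div_add_atTop_nhds_zero_nat (𝕜 := ℂ)
            have h2 := this.comp (tendsto_add_atTop_nat N)
            simpa [one_div, Function.comp_def] using h2
          · simp only [Set.mem_compl_iff, Set.mem_singleton_iff, inv_eq_zero]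
            exact_mod_cast (Nat.succ_ne_zero (n + N))
        have := hslope.comp htend
        refine this.congr fun n => ?_
        simp
    have : F' z₀ = fun a => ∑ i, (F' z₀ a (B i)) • (LinearMap.toContinuousLinearMap (B.coord i)) := by
      funext a; exact hrepr a
    rw [this]
    refine Finset.aestronglyMeasurable_fun_sum _ fun i _ => ?_
    exact (hcomp (B i)).smul_const _
  have hint := hasFDerivAt_integral_of_dominated_of_fderiv_le (μ := μ) (𝕜 := ℂ) (F := f) (x₀ := z₀)
    (bound := fun a => b a / (ε / 4)) (s := Metric.ball z₀ (ε / 2)) (F' := F')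
    (Metric.ball_mem_nhds _ (by linarith))
    (by filter_upwards [hU.mem_nhds hz₀] with z hz using hmeas z hz)
    (hb.mono' (hmeas z₀ hz₀) (Filter.Eventually.of_forall fun a => hfb' z₀ (Metric.mem_ball_self hε) a))
    hmeasF'
    (Filter.Eventually.of_forall fun a z hz => hF'bound a z hz)
    (hb.div_const _)
    (Filter.Eventually.of_forall fun a z hz => hF'at a z hz)
  exact hint.differentiableAt.differentiableWithinAt

end Pool.Agent.TubeDS
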