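import Mathlib

set_option autoImplicit false

open MeasureTheory Filter Topology FourierTransform

namespace Pool.Agent.TubeDS

/-- A rapidly decreasing kernel whose inverse Fourier transform is `1` at `0` and vanishes outside
`(-1,1)`. -/
theorem exists_kernel : ∃ κ : ℝ → ℂ, Continuous κ ∧
    (∀ N : ℕ, Integrable (fun v : ℝ => (1 + |v|) ^ N * ‖κ v‖)) ∧
    (∀ x : ℝ, x = 0 → ∫ v : ℝ, Complex.exp (↑(2 * Real.pi * (v * x)) * Complex.I) * κ v = 1) ∧
    (∀ x : ℝ, 1 ≤ |x| → ∫ v : ℝ, Complex.exp (↑(2 * Real.pi * (v * x)) * Complex.I) * κ v = 0) := by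
  let b : ContDiffBump (0 : ℝ) := ⟨1 / 2, 1, by norm_num, by norm_num⟩
  let ψ : ℝ → ℂ := fun x => (b x : ℂ)
  have hψs : HasCompactSupport ψ := by
    have := b.hasCompactSupport
    exact this.comp_left (g := fun r : ℝ => (r : ℂ)) (by simp)
  have hψc : ContDiff ℝ (⊤ : ℕ∞) ψ := Complex.ofRealCLM.contDiff.comp b.contDiff
  let f : SchwartzMap ℝ ℂ := hψs.toSchwartzMap hψc
  let κ : SchwartzMap ℝ ℂ := 𝓕 f
  have hinv : 𝓕⁻ κ = f := by
    show 𝓕⁻ (𝓕 f) = f
    exact FourierTransform.fourierInv_fourier_eq f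
  have hval : ∀ x : ℝ, ∫ v : ℝ, Complex.exp (↑(2 * Real.pi * (v * x)) * Complex.I) * κ v = ψ x := by
    intro x
    have h1 : (𝓕⁻ (κ : ℝ → ℂ)) x = ψ x := by
      rw [← SchwartzMap.fourierInv_coe, hinv]
      rfl
    rw [← h1, Real.fourierInv_eq']
    refine integral_congr_ae (Filter.Eventually.of_forall fun v => ?_)
    simp [smul_eq_mul, mul_comm]
  refine ⟨κ, κ.continuous, ?_, ?_, ?_⟩
  · intro N
    have hint : Integrable (fun v : ℝ => 2 ^ N * (‖v‖ ^ 0 * ‖κ v‖ + ‖v‖ ^ N * ‖κ v‖)) :=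
      ((κ.integrable_pow_mul volume 0).add (κ.integrable_pow_mul volume N)).const_mul _
    refine hint.mono' ?_ (Filter.Eventually.of_forall fun v => ?_)
    · exact (by fun_prop : Continuous fun v : ℝ => (1 + |v|) ^ N * ‖κ v‖).aestronglyMeasurable
    · rw [Real.norm_eq_abs, abs_of_nonneg (by positivity), ← add_mul, ← mul_assoc]
      gcongr
      rw [Real.norm_eq_abs, pow_zero]
      rcases le_total |v| 1 with h | h
      · calc (1 + |v|) ^ N ≤ 2 ^ N := by gcongr; linarith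
          _ ≤ 2 ^ N * (1 + |v| ^ N) := le_mul_of_one_le_right (by positivity) (by
            have := pow_nonneg (abs_nonneg v) N; linarith)
      · calc (1 + |v|) ^ N ≤ (2 * |v|) ^ N := by gcongr; linarith
          _ = 2 ^ N * |v| ^ N := by rw [mul_pow]
          _ ≤ 2 ^ N * (1 + |v| ^ N) := by gcongr; linarith
  · rintro x rfl
    rw [hval 0]
    show ((b 0 : ℝ) : ℂ) = 1
    rw [b.one_of_mem_closedBall (by simp [b])]
    simp
  · intro x hx
    rw [hval x]
    show ((b x : ℝ) : ℂ) = 0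
    rw [b.zero_of_le_dist (by simpa [b] using hx)]
    simp

end Pool.Agent.TubeDS
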