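import Pool.Agent.TubeDS.BochnerMain
import Pool.Agent.TubeDS.Kernel

set_option autoImplicit false
set_option linter.unusedSectionVars false

open MeasureTheory Filter Topology FourierTransform

namespace Pool.Agent.TubeDS

variable {ι : Type*} [Fintype ι]

/-- insert a coordinate -/
def ins {R : Type*} (u : R) (z : ι → R) : Option ι → R := fun o => o.elim u z

@[simp] theorem ins_none {R : Type*} (u : R) (z : ι → R) : ins u z none = u := rfl
@[simp] theorem ins_some {R : Type*} (u : R) (z : ι → R) (i : ι) : ins u z (some i) = z i := rfl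

theorem re_ins (u : ℂ) (z : ι → ℂ) : (fun j => (ins u z j).re) = ins u.re (fun j => (z j).re) := by
  funext j; cases j <;> rfl

theorem im_ins (u : ℂ) (z : ι → ℂ) : (fun j => (ins u z j).im) = ins u.im (fun j => (z j).im) := by
  funext j; cases j <;> rfl

theorem norm_ins_le (u : ℝ) (y : ι → ℝ) : ‖ins u y‖ ≤ |u| + ‖y‖ := by
  rw [pi_norm_le_iff_of_nonneg (by positivity)]
  intro j
  cases j with
  | none => simp [norm_nonneg]
  | some i =>
    have := norm_le_pi_norm y i
    simp only [ins_some]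
    linarith [abs_nonneg u]

theorem continuous_ins {R : Type*} [TopologicalSpace R] (u : R) :
    Continuous (fun z : ι → R => ins u z) := by
  refine continuous_pi fun j => ?_
  cases j with
  | none => exact continuous_const
  | some i => exact continuous_apply i

theorem continuous_ins' {R : Type*} [TopologicalSpace R] (z : ι → R) :
    Continuous (fun u : R => ins u z) := by
  refine continuous_pi fun j => ?_
  cases j with
  | none => exact continuous_id
  | some i => exact continuous_const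

theorem differentiable_ins (u : ℂ) : Differentiable ℂ (fun z : ι → ℂ => ins u z) := by
  rw [differentiable_pi]
  intro j
  cases j with
  | none => exact differentiable_const _
  | some i => exact differentiable_apply i

/-- slice of a set at `σ` -/
def slice (σ : ℝ) (D : Set (Option ι → ℝ)) : Set (ι → ℝ) := {x | ins σ x ∈ D}

theorem isOpen_slice {σ : ℝ} {D : Set (Option ι → ℝ)} (hD : IsOpen D) : IsOpen (slice σ D) :=
  hD.preimage (continuous_ins σ)

theorem log_ratio_bound {n m : ℕ} (hn : 1 ≤ n) (hm : 1 ≤ m) (h : m ≠ n) :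
    1 ≤ |2 * n * Real.log (n / m)| := by
  have hn0 : (0 : ℝ) < n := by exact_mod_cast hn
  have hm0 : (0 : ℝ) < m := by exact_mod_cast hm
  rcases lt_or_gt_of_ne h with h | h
  · -- m < n
    have h1 : 1 - ((n : ℝ) / m)⁻¹ ≤ Real.log (n / m) :=
      Real.one_sub_inv_le_log_of_pos (by positivity)
    rw [inv_div] at h1
    have h2 : (m : ℝ) + 1 ≤ n := by exact_mod_cast h
    have h3 : 1 / (n : ℝ) ≤ 1 - m / n := by
      rw [le_sub_iff_add_le, ← add_div, div_le_one hn0]; linarith
    have h4 : 1 / (n : ℝ) ≤ Real.log (n / m) := h3.trans h1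
    refine le_trans ?_ (le_abs_self _)
    calc (1 : ℝ) ≤ 2 := by norm_num
      _ = 2 * n * (1 / n) := by field_simp
      _ ≤ 2 * n * Real.log (n / m) := by gcongr
  · -- n < m
    have h1 : 1 - ((m : ℝ) / n)⁻¹ ≤ Real.log (m / n) :=
      Real.one_sub_inv_le_log_of_pos (by positivity)
    rw [inv_div] at h1
    have h2 : (n : ℝ) + 1 ≤ m := by exact_mod_cast h
    have h3 : 1 / (2 * n : ℝ) ≤ 1 - n / m := by
      have hn1 : (1 : ℝ) ≤ n := by exact_mod_cast hn
      rw [le_sub_iff_add_le, div_add_div _ _ (by positivity) (by positivity), div_le_one (by positivity)]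
      nlinarith
    have h4 : 1 / (2 * n : ℝ) ≤ Real.log (m / n) := h3.trans h1
    have h5 : Real.log (n / m) = - Real.log (m / n) := by
      rw [← Real.log_inv, inv_div]
    rw [h5, mul_neg, abs_neg]
    refine le_trans ?_ (le_abs_self _)
    calc (1 : ℝ) = 2 * n * (1 / (2 * n)) := by field_simp
      _ ≤ 2 * n * Real.log (m / n) := by gcongr

/-- Extraction of Dirichlet coefficients, holomorphically in parameters. -/
theorem extraction {D : Set (Option ι → ℝ)} (hD : IsOpen D) {H : (Option ι → ℂ) → ℂ}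
    (hH : DifferentiableOn ℂ H (tube D)) (hHb : PolyBdd D H)
    (a : ℕ → (ι → ℂ) → ℂ) (O : Set (ι → ℝ)) (hOD : O ⊆ slice 2 D)
    (ha0 : ∀ z, a 0 z = 0)
    (hsum : ∀ z ∈ tube O, Summable (fun m : ℕ => ‖a m z‖ * ((m : ℝ) ^ 2)⁻¹))
    (hser : ∀ z ∈ tube O, ∀ t : ℝ, H (ins (2 + t * Complex.I) z) =
      ∑' m : ℕ, a m z * (m : ℂ) ^ (-(2 + t * Complex.I))) :
    ∃ E : ℕ → (ι → ℂ) → ℂ, (∀ n, 1 ≤ n → DifferentiableOn ℂ (E n) (tube (slice 2 D))) ∧
      (∀ n, 1 ≤ n → ∀ z ∈ tube O, E n z = a n z) ∧
      ∀ K ⊆ slice 2 D, IsCompact K → ∃ (C : ℝ) (N : ℕ), ∀ n : ℕ, 1 ≤ n → ∀ z : ι → ℂ,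
        (fun j => (z j).re) ∈ K → ‖E n z‖ ≤ C * (n : ℝ) ^ N * (1 + ‖fun j => (z j).im‖) ^ N := by
  obtain ⟨κ, hκc, hκi, hκ1, hκ0⟩ := exists_kernel
  -- the integrand
  set Fn : ℕ → (ι → ℂ) → ℝ → ℂ := fun n z v =>
    H (ins (2 + ((4 * Real.pi * n * v : ℝ) : ℂ) * Complex.I) z) *
      (n : ℂ) ^ ((2 : ℂ) + ((4 * Real.pi * n * v : ℝ) : ℂ) * Complex.I) * κ v with hFn
  -- uniform bound on compacts
  have hbd : ∀ K ⊆ slice 2 D, IsCompact K → ∃ (C : ℝ) (N : ℕ), 0 ≤ C ∧ ∀ n : ℕ, 1 ≤ n → ∀ z : ι → ℂ,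
      (fun j => (z j).re) ∈ K → ∀ v : ℝ, ‖Fn n z v‖ ≤
        (C * (14 * n) ^ N * (n : ℝ) ^ 2 * (1 + ‖fun j => (z j).im‖) ^ N) * ((1 + |v|) ^ N * ‖κ v‖) := by
    intro K hK hKc
    obtain ⟨C, N, hC⟩ := hHb ((fun x : ι → ℝ => ins (2 : ℝ) x) '' K)
      (by rintro _ ⟨x, hx, rfl⟩; exact hK hx) (hKc.image (continuous_ins 2))
    refine ⟨|C|, N, abs_nonneg _, ?_⟩
    intro n hn z hz v
    have hn1 : (1 : ℝ) ≤ n := by exact_mod_cast hn
    have hre : (2 + ((4 * Real.pi * n * v : ℝ) : ℂ) * Complex.I).re = 2 := by simp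
    have him : (2 + ((4 * Real.pi * n * v : ℝ) : ℂ) * Complex.I).im = 4 * Real.pi * n * v := by simp
    have h1 := hC (ins (2 + ((4 * Real.pi * n * v : ℝ) : ℂ) * Complex.I) z) (by
      rw [re_ins, hre]; exact ⟨_, hz, rfl⟩)
    rw [im_ins, him] at h1
    set y : ι → ℝ := fun j => (z j).im with hy
    have h2 : 1 + ‖ins (4 * Real.pi * n * v) y‖ ≤ (14 * n) * (1 + ‖y‖) * (1 + |v|) := by
      have h3 := norm_ins_le (4 * Real.pi * n * v) y
      have h4 : |4 * Real.pi * n * v| = 4 * Real.pi * n * |v| := by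
        rw [abs_mul, abs_of_nonneg (by positivity)]
      rw [h4] at h3
      have h5 : 4 * Real.pi * n * |v| ≤ 13 * n * |v| := by
        have := Real.pi_lt_d2
        have h6 : 4 * Real.pi ≤ 13 := by linarith
        gcongr
      have h6 := norm_nonneg y
      have h7 := abs_nonneg v
      have h8 : 0 ≤ n * ‖y‖ := by positivity
      have h9 : 0 ≤ n * |v| := by positivity
      have h10 : 0 ≤ n * ‖y‖ * |v| := by positivity
      nlinarith
    have h3 : ‖(n : ℂ) ^ ((2 : ℂ) + ((4 * Real.pi * n * v : ℝ) : ℂ) * Complex.I)‖ = (n : ℝ) ^ 2 := by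
      rw [Complex.norm_natCast_cpow_of_pos (by omega), hre]
      norm_cast
    rw [hFn]
    simp only
    rw [norm_mul, norm_mul, h3]
    calc ‖H (ins (2 + ((4 * Real.pi * n * v : ℝ) : ℂ) * Complex.I) z)‖ * (n : ℝ) ^ 2 * ‖κ v‖
        ≤ (|C| * ((14 * n) * (1 + ‖y‖) * (1 + |v|)) ^ N) * (n : ℝ) ^ 2 * ‖κ v‖ := by
          gcongr
          refine h1.trans ?_
          have := le_abs_self C
          gcongr
      _ = _ := by rw [mul_pow, mul_pow]; ring
  -- continuity in v
  have hcont : ∀ n : ℕ, 1 ≤ n → ∀ z ∈ tube (slice 2 D), Continuous (Fn n z) := by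
    intro n hn z hz
    have hn0 : (n : ℂ) ≠ 0 := by exact_mod_cast (by omega : n ≠ 0)
    rw [hFn]
    refine Continuous.mul (Continuous.mul ?_ ?_) hκc
    · refine hH.continuousOn.comp_continuous
        ((continuous_ins' z).comp (by fun_prop : Continuous fun v : ℝ =>
          (2 + ((4 * Real.pi * n * v : ℝ) : ℂ) * Complex.I))) fun v => ?_
      show (fun j => (ins (2 + ((4 * Real.pi * n * v : ℝ) : ℂ) * Complex.I) z j).re) ∈ D
      rw [re_ins]
      have : (2 + ((4 * Real.pi * n * v : ℝ) : ℂ) * Complex.I).re = 2 := by simp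
      rw [this]
      exact hz
    · refine Continuous.const_cpow (by fun_prop) (Or.inl hn0)
  refine ⟨fun n z => ∫ v, Fn n z v, ?_, ?_, ?_⟩
  · intro n hn
    apply differentiableOn_integral_of_dominated (isOpen_tube (isOpen_slice hD))
    · intro z hz
      exact (hcont n hn z hz).aestronglyMeasurable
    · intro v
      rw [hFn]
      simp only
      refine DifferentiableOn.mul_const (DifferentiableOn.mul_const ?_ _) _
      refine hH.comp (differentiable_ins _).differentiableOn ?_
      intro z hz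
      show (fun j => (ins (2 + ((4 * Real.pi * n * v : ℝ) : ℂ) * Complex.I) z j).re) ∈ D
      rw [re_ins]
      have : (2 + ((4 * Real.pi * n * v : ℝ) : ℂ) * Complex.I).re = 2 := by simp
      rw [this]
      exact hz
    · intro z₀ hz₀
      obtain ⟨r, hr, hball⟩ := Metric.isOpen_iff.mp (isOpen_slice (σ := 2) hD) _ hz₀
      have hball' : Metric.closedBall (fun j => (z₀ j).re) (r / 2) ⊆ slice 2 D :=
        (Metric.closedBall_subset_ball (by linarith)).trans hball
      obtain ⟨C, N, hC0, hC⟩ := hbd _ hball' (isCompact_closedBall _ _)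
      refine ⟨min (r / 2) 1, lt_min (by linarith) one_pos, fun v =>
        (C * (14 * n) ^ N * (n : ℝ) ^ 2 * (2 + ‖fun j => (z₀ j).im‖) ^ N) * ((1 + |v|) ^ N * ‖κ v‖),
        (hκi N).const_mul _, ?_⟩
      intro z hz _ v
      have hd : dist z z₀ < min (r / 2) 1 := hz
      have hzre : (fun j => (z j).re) ∈ Metric.closedBall (fun j => (z₀ j).re) (r / 2) := by
        rw [Metric.mem_closedBall, dist_pi_le_iff (by linarith)]
        intro j
        refine le_trans ?_ ((dist_le_pi_dist z z₀ j).trans (hd.le.trans (min_le_left _ _)))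
        rw [Real.dist_eq, Complex.dist_eq, ← Complex.sub_re]
        exact Complex.abs_re_le_norm _
      have him : ‖fun j => (z j).im‖ ≤ 1 + ‖fun j => (z₀ j).im‖ := by
        rw [pi_norm_le_iff_of_nonneg (by positivity)]
        intro j
        have h1 : |(z j).im - (z₀ j).im| ≤ 1 := by
          rw [← Complex.sub_im]
          refine (Complex.abs_im_le_norm _).trans ?_
          rw [← Complex.dist_eq]
          exact (dist_le_pi_dist z z₀ j).trans (hd.le.trans (min_le_right _ _))
        have h2 := norm_le_pi_norm (fun j => (z₀ j).im) j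
        have h3 : ‖(z j).im‖ ≤ |(z j).im - (z₀ j).im| + ‖(z₀ j).im‖ := by
          calc ‖(z j).im‖ = ‖((z j).im - (z₀ j).im) + (z₀ j).im‖ := by simp
            _ ≤ _ := norm_add_le _ _
        linarith
      refine (hC n hn z hzre v).trans ?_
      have h4 : 1 + ‖fun j => (z j).im‖ ≤ 2 + ‖fun j => (z₀ j).im‖ := by linarith
      beta_reduce
      gcongr
  · intro n hn z hz
    have hn0 : (n : ℂ) ≠ 0 := by exact_mod_cast (by omega : n ≠ 0)
    have hnr : (0 : ℝ) < n := by exact_mod_cast hn
    -- each term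
    set T : ℕ → ℝ → ℂ := fun m v => a m z * (m : ℂ) ^ (-(2 + ((4 * Real.pi * n * v : ℝ) : ℂ) * Complex.I)) *
      (n : ℂ) ^ ((2 : ℂ) + ((4 * Real.pi * n * v : ℝ) : ℂ) * Complex.I) * κ v with hT
    have hTnorm : ∀ m v, ‖T m v‖ ≤ ‖a m z‖ * ((m : ℝ) ^ 2)⁻¹ * (n : ℝ) ^ 2 * ‖κ v‖ := by
      intro m v
      rcases Nat.eq_zero_or_pos m with hm | hm
      · subst hm
        simp [hT, ha0]
      · have h1 : ‖(m : ℂ) ^ (-(2 + ((4 * Real.pi * n * v : ℝ) : ℂ) * Complex.I))‖ = ((m : ℝ) ^ 2)⁻¹ := by
          rw [Complex.norm_natCast_cpow_of_pos hm]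
          have : (-(2 + ((4 * Real.pi * n * v : ℝ) : ℂ) * Complex.I)).re = -2 := by simp
          rw [this, Real.rpow_neg (by positivity)]
          norm_cast
        have h2 : ‖(n : ℂ) ^ ((2 : ℂ) + ((4 * Real.pi * n * v : ℝ) : ℂ) * Complex.I)‖ = (n : ℝ) ^ 2 := by
          rw [Complex.norm_natCast_cpow_of_pos (by omega)]
          have : ((2 : ℂ) + ((4 * Real.pi * n * v : ℝ) : ℂ) * Complex.I).re = 2 := by simp
          rw [this]; norm_cast
        rw [hT]
        simp only
        rw [norm_mul, norm_mul, norm_mul, h1, h2]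
    have hTcont : ∀ m, Continuous (T m) := by
      intro m
      rcases Nat.eq_zero_or_pos m with hm | hm
      · have : T m = fun _ => 0 := by
          funext v; simp [hT, hm, ha0]
        rw [this]; exact continuous_const
      · have hm0 : (m : ℂ) ≠ 0 := by exact_mod_cast (by omega : m ≠ 0)
        rw [hT]
        refine Continuous.mul (Continuous.mul (Continuous.mul continuous_const ?_) ?_) hκc
        · exact Continuous.const_cpow (by fun_prop) (Or.inl hm0)
        · exact Continuous.const_cpow (by fun_prop) (Or.inl hn0)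
    have hκint : Integrable (fun v => ‖κ v‖) := by
      have := hκi 0
      simpa using this
    have hTint : ∀ m, Integrable (T m) := by
      intro m
      exact (hκint.const_mul (‖a m z‖ * ((m : ℝ) ^ 2)⁻¹ * (n : ℝ) ^ 2)).mono'
        (hTcont m).aestronglyMeasurable (Filter.Eventually.of_forall fun v => hTnorm m v)
    have hTsum : Summable (fun m => ∫ v, ‖T m v‖) := by
      refine Summable.of_nonneg_of_le (fun m => integral_nonneg fun v => norm_nonneg _)
        (fun m => ?_) ((hsum z hz).mul_right ((n : ℝ) ^ 2 * ∫ v, ‖κ v‖))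
      calc ∫ v, ‖T m v‖ ≤ ∫ v, ‖a m z‖ * ((m : ℝ) ^ 2)⁻¹ * (n : ℝ) ^ 2 * ‖κ v‖ :=
            integral_mono (hTint m).norm (hκint.const_mul _) (fun v => hTnorm m v)
        _ = _ := by rw [integral_const_mul]; ring
    have hhas := hasSum_integral_of_summable_integral_norm hTint hTsum
    -- evaluate each integral
    have hval : ∀ m, ∫ v, T m v = if m = n then a n z else 0 := by
      intro m
      rcases Nat.eq_zero_or_pos m with hm | hm
      · subst hm
        have : T 0 = fun _ => 0 := by funext v; simp [hT, ha0]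
        rw [this, if_neg (by omega)]
        simp
      · have hm0 : (m : ℂ) ≠ 0 := by exact_mod_cast (by omega : m ≠ 0)
        have hmr : (0 : ℝ) < m := by exact_mod_cast hm
        have hTe : ∀ v, T m v = (a m z * ((n : ℂ) / m) ^ 2) *
            (Complex.exp (↑(2 * Real.pi * (v * (2 * n * Real.log (n / m)))) * Complex.I) * κ v) := by
          intro v
          rw [hT]
          simp only
          have hlog : ((Real.log (n / m) : ℝ) : ℂ) = Complex.log n - Complex.log m := by
            rw [Real.log_div hnr.ne' hmr.ne', Complex.ofReal_sub, Complex.ofReal_log hnr.le,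
              Complex.ofReal_log hmr.le]
            simp
          have h1 : (m : ℂ) ^ (-(2 + ((4 * Real.pi * n * v : ℝ) : ℂ) * Complex.I)) *
              (n : ℂ) ^ ((2 : ℂ) + ((4 * Real.pi * n * v : ℝ) : ℂ) * Complex.I) =
              ((n : ℂ) / m) ^ 2 *
              Complex.exp (↑(2 * Real.pi * (v * (2 * n * Real.log (n / m)))) * Complex.I) := by
            have h2 : ((n : ℂ) / m) ^ 2 = Complex.exp (2 * (Complex.log n - Complex.log m)) := by
              rw [mul_sub, Complex.exp_sub]
              have e1 : Complex.exp (2 * Complex.log n) = (n : ℂ) ^ 2 := by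
                rw [mul_comm, ← Complex.cpow_def_of_ne_zero hn0]; norm_cast
              have e2 : Complex.exp (2 * Complex.log m) = (m : ℂ) ^ 2 := by
                rw [mul_comm, ← Complex.cpow_def_of_ne_zero hm0]; norm_cast
              rw [e1, e2, div_pow]
            rw [h2, Complex.cpow_def_of_ne_zero hm0, Complex.cpow_def_of_ne_zero hn0, ← Complex.exp_add,
              ← Complex.exp_add]
            congr 1
            push_cast
            rw [hlog]
            ring
          calc a m z * (m : ℂ) ^ (-(2 + ((4 * Real.pi * n * v : ℝ) : ℂ) * Complex.I)) *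
                (n : ℂ) ^ ((2 : ℂ) + ((4 * Real.pi * n * v : ℝ) : ℂ) * Complex.I) * κ v
              = a m z * ((m : ℂ) ^ (-(2 + ((4 * Real.pi * n * v : ℝ) : ℂ) * Complex.I)) *
                (n : ℂ) ^ ((2 : ℂ) + ((4 * Real.pi * n * v : ℝ) : ℂ) * Complex.I)) * κ v := by ring
            _ = _ := by rw [h1]; ring
        simp_rw [hTe]
        rw [integral_const_mul]
        by_cases hmn : m = n
        · subst hmn
          rw [if_pos rfl, hκ1 _ (by rw [div_self hmr.ne', Real.log_one, mul_zero]), div_self hm0]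
          ring
        · rw [if_neg hmn, hκ0 _ (log_ratio_bound hn hm hmn), mul_zero]
    have hE : ∀ v, Fn n z v = ∑' m, T m v := by
      intro v
      rw [hFn]
      simp only
      rw [hser z hz (4 * Real.pi * n * v), hT]
      simp only
      rw [← tsum_mul_right, ← tsum_mul_right]
    simp only
    simp_rw [hE]
    rw [← hhas.tsum_eq]
    simp_rw [hval]
    rw [tsum_ite_eq]
  · intro K hK hKc
    obtain ⟨C, N, hC0, hC⟩ := hbd K hK hKc
    refine ⟨C * 14 ^ N * ∫ v, (1 + |v|) ^ N * ‖κ v‖, N + 2, ?_⟩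
    intro n hn z hz
    have hn1 : (1 : ℝ) ≤ n := by exact_mod_cast hn
    have hI0 : 0 ≤ ∫ v, (1 + |v|) ^ N * ‖κ v‖ := integral_nonneg fun v => by positivity
    refine (norm_integral_le_of_norm_le ((hκi N).const_mul _)
      (Filter.Eventually.of_forall (hC n hn z hz))).trans ?_
    rw [integral_const_mul]
    have h1 : (1 + ‖fun j => (z j).im‖) ^ N ≤ (1 + ‖fun j => (z j).im‖) ^ (N + 2) :=
      pow_le_pow_right₀ (by linarith [norm_nonneg (fun j => (z j).im)]) (by omega)
    calc C * (14 * n) ^ N * (n : ℝ) ^ 2 * (1 + ‖fun j => (z j).im‖) ^ N * ∫ v, (1 + |v|) ^ N * ‖κ v‖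
        = (C * 14 ^ N * ∫ v, (1 + |v|) ^ N * ‖κ v‖) * (n : ℝ) ^ (N + 2) *
          (1 + ‖fun j => (z j).im‖) ^ N := by rw [mul_pow, pow_add]; ring
      _ ≤ _ := by gcongr

end Pool.Agent.TubeDS
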