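import Pool.Agent.TubeDS.Gauss

set_option autoImplicit false
set_option linter.unusedSectionVars false

open MeasureTheory Filter Topology

namespace Pool.Agent.TubeDS

variable {ι : Type*} [Fintype ι]

/-- `exp (-2 π z · ξ)` -/
noncomputable def ker (ξ : EuclideanSpace ℝ ι) (z : ι → ℂ) : ℂ :=
  Complex.exp (-(2 * Real.pi * ∑ j, z j * (ξ j : ℂ)))

theorem differentiable_ker (ξ : EuclideanSpace ℝ ι) : Differentiable ℂ (ker ξ) := by
  unfold ker; fun_prop

theorem norm_ker (ξ : EuclideanSpace ℝ ι) (x y : ι → ℝ) :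
    ‖ker ξ (pt x y)‖ = Real.exp (-(2 * Real.pi * ∑ j, x j * ξ j)) := by
  unfold ker
  rw [Complex.norm_exp]
  congr 1
  have : (2 * (Real.pi : ℂ) * ∑ j, pt x y j * (ξ j : ℂ)) =
      (((2 * Real.pi : ℝ)) : ℂ) * ∑ j, pt x y j * (ξ j : ℂ) := by push_cast; ring
  rw [Complex.neg_re, this, Complex.re_ofReal_mul, Complex.re_sum]
  simp [Complex.mul_re]

/-- the transform integrand -/
noncomputable def hfun (G : (ι → ℂ) → ℂ) (y₀ : ι → ℝ) (ξ : EuclideanSpace ℝ ι) (z : ι → ℂ) : ℂ :=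
  ker ξ z * (G z * gaus y₀ z)

/-- the transform at `x` -/
noncomputable def Itr (G : (ι → ℂ) → ℂ) (y₀ : ι → ℝ) (ξ : EuclideanSpace ℝ ι) (x : ι → ℝ) : ℂ :=
  ∫ y : EuclideanSpace ℝ ι, hfun G y₀ ξ (pt x y)

theorem continuous_pt (x : ι → ℝ) : Continuous (fun y : EuclideanSpace ℝ ι => pt x y) := by
  unfold pt; fun_prop

theorem hfun_bound {Ω : Set (ι → ℝ)} {G : (ι → ℂ) → ℂ} (hG : PolyBdd Ω G)
    (y₀ : ι → ℝ) (ξ : EuclideanSpace ℝ ι) {K : Set (ι → ℝ)} (hKΩ : K ⊆ Ω) (hK : IsCompact K) :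
    ∃ C : ℝ, 0 ≤ C ∧ ∀ x ∈ K, ∀ y : EuclideanSpace ℝ ι, ‖hfun G y₀ ξ (pt x y)‖ ≤ C * dec y := by
  obtain ⟨C, N, hC0, hC⟩ := gaus_bound hG hKΩ hK
  obtain ⟨B, hB⟩ : ∃ B, ∀ x ∈ K, -(2 * Real.pi * ∑ j, x j * ξ j) ≤ B := by
    have hcont : Continuous (fun x : ι → ℝ => -(2 * Real.pi * ∑ j, x j * ξ j)) := by fun_prop
    obtain ⟨B, hB⟩ := (hK.image hcont).bddAbove
    exact ⟨B, fun x hx => hB ⟨x, hx, rfl⟩⟩
  refine ⟨Real.exp B * (C * (1 + ‖y₀‖) ^ N * (1 + ‖-(WithLp.toLp 2 y₀ : EuclideanSpace ℝ ι)‖) ^ dexp ι),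
    by positivity, ?_⟩
  intro x hx y
  have h1 := hC x hx y₀ y
  have h2 : dec (y - WithLp.toLp 2 y₀) ≤ (1 + ‖-(WithLp.toLp 2 y₀ : EuclideanSpace ℝ ι)‖) ^ dexp ι * dec y := by
    rw [sub_eq_add_neg]; exact dec_add_le _ _
  unfold hfun
  rw [norm_mul, norm_ker]
  calc Real.exp (-(2 * Real.pi * ∑ j, x j * ξ j)) * ‖G (pt x y) * gaus y₀ (pt x y)‖
      ≤ Real.exp B * (C * (1 + ‖y₀‖) ^ N * dec (y - WithLp.toLp 2 y₀)) := by
        gcongr
        exact hB x hx
    _ ≤ Real.exp B * (C * (1 + ‖y₀‖) ^ N * ((1 + ‖-(WithLp.toLp 2 y₀ : EuclideanSpace ℝ ι)‖) ^ dexp ι * dec y)) := by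
        gcongr
    _ = _ := by ring

theorem differentiableOn_hfun {Ω : Set (ι → ℝ)} {G : (ι → ℂ) → ℂ}
    (hd : DifferentiableOn ℂ G (tube Ω)) (y₀ : ι → ℝ) (ξ : EuclideanSpace ℝ ι) :
    DifferentiableOn ℂ (hfun G y₀ ξ) (tube Ω) := by
  unfold hfun
  exact (differentiable_ker ξ).differentiableOn.mul (hd.mul (differentiable_gaus y₀).differentiableOn)

/-- The transform does not depend on the real part, locally. -/
theorem Itr_locally_const {Ω : Set (ι → ℝ)} (hΩ : IsOpen Ω) {G : (ι → ℂ) → ℂ}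
    (hd : DifferentiableOn ℂ G (tube Ω)) (hG : PolyBdd Ω G)
    (y₀ : ι → ℝ) (ξ : EuclideanSpace ℝ ι) {x : ι → ℝ} (hx : x ∈ Ω) :
    ∀ᶠ x' in 𝓝 x, Itr G y₀ ξ x' = Itr G y₀ ξ x := by
  obtain ⟨r, hr, hball⟩ := Metric.isOpen_iff.mp hΩ x hx
  have hball' : Metric.closedBall x (r / 2) ⊆ Ω :=
    (Metric.closedBall_subset_ball (by linarith)).trans hball
  obtain ⟨C, hC0, hC⟩ := hfun_bound hG y₀ ξ hball' (isCompact_closedBall x (r / 2))
  filter_upwards [Metric.ball_mem_nhds x (show (0 : ℝ) < r / 4 by linarith)] with x' hx'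
  set v : ι → ℝ := x' - x with hv
  have hvn : ‖v‖ ≤ r / 4 := by
    rw [hv, ← dist_eq_norm]; exact (Metric.mem_ball.mp hx').le
  -- the strip
  set U : Set ℂ := Metric.ball (0 : ℂ) 2 with hU
  have hreU : ∀ τ ∈ U, x + τ.re • v ∈ Metric.closedBall x (r / 2) := by
    intro τ hτ
    rw [mem_closedBall_iff_norm, add_sub_cancel_left, norm_smul]
    have h1 : ‖τ.re‖ ≤ 2 := by
      have := Complex.abs_re_le_norm τ
      rw [hU, mem_ball_zero_iff] at hτ
      rw [Real.norm_eq_abs]; linarith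
    nlinarith [norm_nonneg v, norm_nonneg τ.re]
  set P : ℂ → EuclideanSpace ℝ ι → (ι → ℂ) := fun τ y j => pt x y j + τ * (v j : ℂ) with hP
  have hPpt : ∀ τ y, P τ y = pt (x + τ.re • v) (fun j => (y + τ.im • (WithLp.toLp 2 v : EuclideanSpace ℝ ι)) j) := by
    intro τ y
    funext j
    apply Complex.ext
    · simp [hP]
    · simp [hP]
  set J : ℂ → ℂ := fun τ => ∫ y : EuclideanSpace ℝ ι, hfun G y₀ ξ (P τ y) with hJ
  have hJdiff : DifferentiableOn ℂ J U := by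
    apply differentiableOn_integral_of_dominated Metric.isOpen_ball
    · intro τ hτ
      have hcont : Continuous (fun y : EuclideanSpace ℝ ι => P τ y) := by
        rw [hP]; unfold pt; fun_prop
      have hco : ContinuousOn (hfun G y₀ ξ) (tube Ω) := (differentiableOn_hfun hd y₀ ξ).continuousOn
      have : Continuous (fun y : EuclideanSpace ℝ ι => hfun G y₀ ξ (P τ y)) := by
        refine hco.comp_continuous hcont fun y => ?_
        rw [hPpt, pt_mem_tube]
        exact hball' (hreU τ hτ)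
      exact this.aestronglyMeasurable
    · intro y τ hτ
      have h1 : DifferentiableAt ℂ (hfun G y₀ ξ) (P τ y) := by
        refine (differentiableOn_hfun hd y₀ ξ).differentiableAt ((isOpen_tube hΩ).mem_nhds ?_)
        rw [hPpt, pt_mem_tube]
        exact hball' (hreU τ hτ)
      have h2 : DifferentiableAt ℂ (fun τ => P τ y) τ := by
        rw [hP]; fun_prop
      exact (DifferentiableAt.comp τ h1 h2).differentiableWithinAt
    · intro τ₀ _
      refine ⟨1, one_pos, fun y => C * ((1 + 2 * ‖(WithLp.toLp 2 v : EuclideanSpace ℝ ι)‖) ^ dexp ι * dec y),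
        (integrable_dec.const_mul _).const_mul _, ?_⟩
      intro τ _ hτ y
      rw [hPpt]
      have h1 := hC _ (hreU τ hτ) (y + τ.im • (WithLp.toLp 2 v : EuclideanSpace ℝ ι))
      refine h1.trans ?_
      have h2 := dec_add_le y (τ.im • (WithLp.toLp 2 v : EuclideanSpace ℝ ι))
      have h3 : ‖τ.im • (WithLp.toLp 2 v : EuclideanSpace ℝ ι)‖ ≤ 2 * ‖(WithLp.toLp 2 v : EuclideanSpace ℝ ι)‖ := by
        rw [norm_smul]
        have := Complex.abs_im_le_norm τ
        rw [mem_ball_zero_iff] at hτ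
        rw [Real.norm_eq_abs]
        gcongr
        linarith
      have h4 : (1 + ‖τ.im • (WithLp.toLp 2 v : EuclideanSpace ℝ ι)‖) ^ dexp ι ≤
          (1 + 2 * ‖(WithLp.toLp 2 v : EuclideanSpace ℝ ι)‖) ^ dexp ι := by gcongr
      have h5 := dec_nonneg y
      beta_reduce
      calc C * dec (y + τ.im • (WithLp.toLp 2 v : EuclideanSpace ℝ ι))
          ≤ C * ((1 + ‖τ.im • (WithLp.toLp 2 v : EuclideanSpace ℝ ι)‖) ^ dexp ι * dec y) := by gcongr
        _ ≤ _ := by gcongr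
  have htrans : ∀ (τ : ℂ) (s : ℝ), J (τ + s * Complex.I) = J τ := by
    intro τ s
    rw [hJ]
    simp only
    have h1 : ∀ y, P (τ + s * Complex.I) y = P τ (y + s • (WithLp.toLp 2 v : EuclideanSpace ℝ ι)) := by
      intro y
      funext j
      simp [hP, pt]
      ring
    simp_rw [h1]
    exact integral_add_right_eq_self (fun y => hfun G y₀ ξ (P τ y)) _
  have hJfd : Set.EqOn (fderiv ℂ J) 0 U := by
    intro τ hτ
    have hda : DifferentiableAt ℂ J τ := hJdiff.differentiableAt (Metric.isOpen_ball.mem_nhds hτ)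
    have hd0 : deriv J τ = 0 := by
      have hdj : HasDerivAt J (deriv J τ) (τ + ((0 : ℝ) : ℂ) * Complex.I) := by
        simpa using hda.hasDerivAt
      have hg : HasDerivAt (fun s : ℝ => τ + (s : ℂ) * Complex.I) Complex.I (0 : ℝ) := by
        have h := ((Complex.ofRealCLM.hasDerivAt (x := (0 : ℝ))).mul_const Complex.I).const_add τ
        simpa using h
      have hcomp : HasDerivAt (fun s : ℝ => J (τ + (s : ℂ) * Complex.I)) (deriv J τ * Complex.I) (0 : ℝ) :=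
        HasDerivAt.comp (h₂ := J) (0 : ℝ) hdj hg
      have hconst : HasDerivAt (fun s : ℝ => J (τ + (s : ℂ) * Complex.I)) 0 (0 : ℝ) := by
        simp_rw [htrans τ]
        exact hasDerivAt_const _ _
      have := hcomp.unique hconst
      rcases mul_eq_zero.mp this with h | h
      · exact h
      · exact absurd h Complex.I_ne_zero
    show fderiv ℂ J τ = 0
    ext
    simp [hd0]
  have h0 : (0 : ℂ) ∈ U := by simp [hU]
  have h1 : (1 : ℂ) ∈ U := by simp [hU]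
  have hfin := Metric.isOpen_ball.is_const_of_fderiv_eq_zero (convex_ball (0:ℂ) 2).isPreconnected hJdiff hJfd h1 h0
  have hJ1 : J 1 = Itr G y₀ ξ x' := by
    rw [hJ]
    unfold Itr
    simp only
    congr 1
    funext y
    congr 1
    funext j
    simp [hP, pt, hv]
    ring
  have hJ0 : J 0 = Itr G y₀ ξ x := by
    rw [hJ]
    unfold Itr
    simp only
    congr 1
    funext y
    congr 1
    funext j
    simp [hP, pt]
  rw [← hJ1, ← hJ0, hfin]

theorem Itr_const {Ω : Set (ι → ℝ)} (hΩ : IsOpen Ω) (hpre : IsPreconnected Ω) {G : (ι → ℂ) → ℂ}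
    (hd : DifferentiableOn ℂ G (tube Ω)) (hG : PolyBdd Ω G)
    (y₀ : ι → ℝ) (ξ : EuclideanSpace ℝ ι) {x x' : ι → ℝ} (hx : x ∈ Ω) (hx' : x' ∈ Ω) :
    Itr G y₀ ξ x = Itr G y₀ ξ x' := by
  have hev := fun (x : ι → ℝ) (hx : x ∈ Ω) => Itr_locally_const hΩ hd hG y₀ ξ hx
  have hder : ∀ x ∈ Ω, HasFDerivAt (𝕜 := ℝ) (Itr G y₀ ξ) (0 : (ι → ℝ) →L[ℝ] ℂ) x := by
    intro x hx
    exact (hasFDerivAt_const (Itr G y₀ ξ x) x).congr_of_eventuallyEq (hev x hx)
  exact hΩ.is_const_of_fderiv_eq_zero (𝕜 := ℝ) hpre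
    (fun x hx => (hder x hx).differentiableAt.differentiableWithinAt)
    (fun x hx => (hder x hx).fderiv) hx hx'

end Pool.Agent.TubeDS
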