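import Pool.Agent.TubeDS.Hull

set_option autoImplicit false
set_option linter.unusedSectionVars false

open MeasureTheory Filter Topology FourierTransform

namespace Pool.Agent.TubeDS

variable {ι : Type*} [Fintype ι]

/-- It is enough to check polynomial boundedness locally. -/
theorem polyBdd_of_local {Ω : Set (ι → ℝ)} {G : (ι → ℂ) → ℂ}
    (h : ∀ x ∈ Ω, ∃ U ∈ 𝓝 x, ∃ (C : ℝ) (N : ℕ), 0 ≤ C ∧ ∀ z : ι → ℂ,
      (fun j => (z j).re) ∈ U → ‖G z‖ ≤ C * (1 + ‖fun j => (z j).im‖) ^ N) : PolyBdd Ω G := by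
  intro K hKΩ hK
  have key : ∃ (C : ℝ) (N : ℕ), 0 ≤ C ∧ ∀ z : ι → ℂ,
      (fun j => (z j).re) ∈ K → ‖G z‖ ≤ C * (1 + ‖fun j => (z j).im‖) ^ N := by
    refine hK.induction_on (p := fun S => ∃ (C : ℝ) (N : ℕ), 0 ≤ C ∧ ∀ z : ι → ℂ,
      (fun j => (z j).re) ∈ S → ‖G z‖ ≤ C * (1 + ‖fun j => (z j).im‖) ^ N) ?_ ?_ ?_ ?_
    · exact ⟨0, 0, le_refl _, fun z hz => absurd hz (Set.notMem_empty _)⟩
    · rintro s t hst ⟨C, N, hC, hb⟩
      exact ⟨C, N, hC, fun z hz => hb z (hst hz)⟩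
    · rintro s t ⟨C, N, hC, hb⟩ ⟨C', N', hC', hb'⟩
      refine ⟨max C C', max N N', le_max_of_le_left hC, ?_⟩
      intro z hz
      have h1 : (1 : ℝ) ≤ 1 + ‖fun j => (z j).im‖ := by linarith [norm_nonneg (fun j => (z j).im)]
      rcases hz with hz | hz
      · refine (hb z hz).trans ?_
        have h2 := pow_le_pow_right₀ h1 (le_max_left N N')
        have h3 := le_max_left C C'
        have h4 : 0 ≤ max C C' := le_max_of_le_left hC
        gcongr
      · refine (hb' z hz).trans ?_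
        have h2 := pow_le_pow_right₀ h1 (le_max_right N N')
        have h3 := le_max_right C C'
        have h4 : 0 ≤ max C C' := le_max_of_le_left hC
        gcongr
    · intro x hx
      obtain ⟨U, hU, C, N, hC, hb⟩ := h x (hKΩ hx)
      exact ⟨U, mem_nhdsWithin_of_mem_nhds hU, C, N, hC, hb⟩
  obtain ⟨C, N, _, hb⟩ := key
  exact ⟨C, N, hb⟩

/-- the inverse transform -/
noncomputable def gt (Ψ : EuclideanSpace ℝ ι → ℂ) (z : ι → ℂ) : ℂ :=
  ∫ ξ : EuclideanSpace ℝ ι, Complex.exp (2 * Real.pi * ∑ j, z j * (ξ j : ℂ)) * Ψ ξ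

theorem norm_expfac (z : ι → ℂ) (ξ : EuclideanSpace ℝ ι) :
    ‖Complex.exp (2 * Real.pi * ∑ j, z j * (ξ j : ℂ))‖ =
      Real.exp (2 * Real.pi * ∑ j, (z j).re * ξ j) := by
  rw [Complex.norm_exp]
  congr 1
  have : (2 * (Real.pi : ℂ) * ∑ j, z j * (ξ j : ℂ)) =
      (((2 * Real.pi : ℝ)) : ℂ) * ∑ j, z j * (ξ j : ℂ) := by push_cast; ring
  rw [this, Complex.re_ofReal_mul, Complex.re_sum]
  simp [Complex.mul_re]

/-- Bochner's tube theorem for holomorphic functions that are polynomially bounded in vertical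
strips: they extend, with polynomial bounds, to the tube over the convex hull. -/
theorem bochner {Ω : Set (ι → ℝ)} (hΩ : IsOpen Ω) (hpre : IsPreconnected Ω) (hne : Ω.Nonempty)
    {G : (ι → ℂ) → ℂ} (hd : DifferentiableOn ℂ G (tube Ω)) (hG : PolyBdd Ω G) :
    ∃ G' : (ι → ℂ) → ℂ, DifferentiableOn ℂ G' (tube (convexHull ℝ Ω)) ∧
      Set.EqOn G' G (tube Ω) ∧ PolyBdd (convexHull ℝ Ω) G' := by
  obtain ⟨x₀, hx₀⟩ := hne
  set C : Set (ι → ℝ) := convexHull ℝ Ω with hCdef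
  have hCopen : IsOpen C := hΩ.convexHull
  have hCconv : Convex ℝ C := convex_convexHull ℝ Ω
  have hΩC : Ω ⊆ C := subset_convexHull ℝ Ω
  set Ψ : (ι → ℝ) → EuclideanSpace ℝ ι → ℂ := fun y₀ ξ => Itr G y₀ ξ x₀ with hΨ
  have hΨx : ∀ y₀ ξ, ∀ x ∈ Ω, Itr G y₀ ξ x = Ψ y₀ ξ := fun y₀ ξ x hx =>
    Itr_const hΩ hpre hd hG y₀ ξ hx hx₀
  have hΨcont : ∀ y₀, Continuous (Ψ y₀) := fun y₀ => Itr_continuous hd hG y₀ hx₀
  have hΩgood : Ω ⊆ goodSet Ψ := by
    intro x hx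
    obtain ⟨A, N, hA, hb⟩ := Itr_bound hG hx
    exact ⟨A, N, hA, fun y₀ ξ => by rw [← hΨx y₀ ξ x hx]; exact hb y₀ ξ⟩
  have hCgood : C ⊆ goodSet Ψ := convexHull_min hΩgood (convex_goodSet Ψ)
  have hloc : ∀ x ∈ C, ∃ ε > 0, ∃ (A : ℝ) (N : ℕ), 0 ≤ A ∧ ∀ x' ∈ Metric.ball x ε,
      ∀ (y₀ : ι → ℝ) (ξ : EuclideanSpace ℝ ι),
      Real.exp (2 * Real.pi * ∑ j, x' j * ξ j) * ‖Ψ y₀ ξ‖ ≤ A * (1 + ‖y₀‖) ^ N * dec ξ :=
    fun x hx => goodSet_local hCopen hCgood hx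
  -- continuity of the integrand
  have hcontint : ∀ y₀ (z : ι → ℂ), Continuous (fun ξ : EuclideanSpace ℝ ι =>
      Complex.exp (2 * Real.pi * ∑ j, z j * (ξ j : ℂ)) * Ψ y₀ ξ) := by
    intro y₀ z
    exact (by fun_prop : Continuous (fun ξ : EuclideanSpace ℝ ι =>
      Complex.exp (2 * Real.pi * ∑ j, z j * (ξ j : ℂ)))).mul (hΨcont y₀)
  have hgtd : ∀ y₀, DifferentiableOn ℂ (gt (Ψ y₀)) (tube C) := by
    intro y₀
    unfold gt
    apply differentiableOn_integral_of_dominated (isOpen_tube hCopen)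
    · intro z _
      exact (hcontint y₀ z).aestronglyMeasurable
    · intro ξ
      apply Differentiable.differentiableOn
      fun_prop
    · intro z₀ hz₀
      obtain ⟨ε, hε, A, N, hA, hb⟩ := hloc _ hz₀
      refine ⟨ε, hε, fun ξ => A * (1 + ‖y₀‖) ^ N * dec ξ, integrable_dec.const_mul _, ?_⟩
      intro z hz _ ξ
      rw [norm_mul, norm_expfac]
      refine hb (fun j => (z j).re) ?_ y₀ ξ
      rw [Metric.mem_ball] at hz ⊢
      refine lt_of_le_of_lt ?_ hz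
      rw [dist_pi_le_iff dist_nonneg]
      intro j
      refine le_trans ?_ (dist_le_pi_dist z z₀ j)
      rw [Real.dist_eq, Complex.dist_eq, ← Complex.sub_re]
      exact Complex.abs_re_le_norm _
  have hint : ∀ y₀, ∀ x ∈ C, Integrable (fun ξ : EuclideanSpace ℝ ι =>
      Complex.exp ((2 * Real.pi * ∑ j, x j * ξ j : ℝ)) * Ψ y₀ ξ) := by
    intro y₀ x hx
    obtain ⟨ε, hε, A, N, hA, hb⟩ := hloc x hx
    refine Integrable.mono' (g := fun ξ => A * (1 + ‖y₀‖) ^ N * dec ξ) (integrable_dec.const_mul _) ?_ ?_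
    · exact ((by fun_prop : Continuous (fun ξ : EuclideanSpace ℝ ι =>
        Complex.exp ((2 * Real.pi * ∑ j, x j * ξ j : ℝ)))).mul (hΨcont y₀)).aestronglyMeasurable
    · refine Filter.Eventually.of_forall fun ξ => ?_
      rw [norm_mul, Complex.norm_exp, Complex.ofReal_re]
      exact hb x (Metric.mem_ball_self hε) y₀ ξ
  have hgteq : ∀ y₀, Set.EqOn (gt (Ψ y₀)) (fun z => G z * gaus y₀ z) (tube Ω) := by
    intro y₀ z hz
    have hx : (fun j => (z j).re) ∈ Ω := hz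
    have hinv := inversion hd hG y₀ hx (fun ξ => hΨx y₀ ξ _ hx) (hint y₀ _ (hΩC hx))
      (WithLp.toLp 2 (fun j => (z j).im))
    unfold gt
    simp only
    have hpt : pt (fun j => (z j).re) (WithLp.toLp 2 (fun j => (z j).im) : EuclideanSpace ℝ ι) = z := pt_self z
    rw [gsl, hpt] at hinv
    exact hinv.symm
  set G' : (ι → ℂ) → ℂ := fun z => gt (Ψ 0) z / gaus 0 z with hG'
  have hdiv : ∀ y₀, DifferentiableOn ℂ (fun z => gt (Ψ y₀) z / gaus y₀ z) (tube C) := by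
    intro y₀
    simp_rw [div_eq_mul_inv]
    exact (hgtd y₀).mul ((differentiable_gaus y₀).differentiableOn.fun_inv fun z _ => gaus_ne_zero y₀ z)
  have hdivG : ∀ y₀, Set.EqOn (fun z => gt (Ψ y₀) z / gaus y₀ z) G (tube Ω) := by
    intro y₀ z hz
    simp only
    rw [hgteq y₀ hz, mul_div_assoc, div_self (gaus_ne_zero y₀ z), mul_one]
  have hsame : ∀ y₀, Set.EqOn G' (fun z => gt (Ψ y₀) z / gaus y₀ z) (tube C) := by
    intro y₀
    refine eqOn_tube_of_convex hCopen hCconv hΩ hΩC ⟨x₀, hx₀⟩ (hdiv 0) (hdiv y₀) ?_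
    intro z hz
    exact (hdivG 0 hz).trans (hdivG y₀ hz).symm
  refine ⟨G', hdiv 0, hdivG 0, polyBdd_of_local ?_⟩
  intro x hx
  obtain ⟨ε, hε, A, N, hA, hb⟩ := hloc x hx
  obtain ⟨r, hr, hball⟩ := Metric.isOpen_iff.mp hCopen x hx
  refine ⟨Metric.ball x (min ε r), Metric.ball_mem_nhds x (lt_min hε hr),
    A * ∫ ξ : EuclideanSpace ℝ ι, dec ξ, N, mul_nonneg hA (integral_nonneg fun y => dec_nonneg y), ?_⟩
  intro z hz
  have hzC : z ∈ tube C := hball (Metric.ball_subset_ball (min_le_right _ _) hz)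
  rw [hsame (fun j => (z j).im) hzC]
  simp only
  rw [norm_div]
  have hg : 1 ≤ ‖gaus (fun j => (z j).im) z‖ := by
    have hpt := pt_self z
    have h1 := norm_gaus (fun j => (z j).im) (fun j => (z j).re) (fun j => (z j).im)
    rw [hpt] at h1
    rw [h1]
    simp only [sub_self, ne_eq, OfNat.ofNat_ne_zero, not_false_eq_true, zero_pow, Finset.sum_const_zero,
      sub_zero, Real.one_le_exp_iff]
    exact Finset.sum_nonneg fun j _ => sq_nonneg _
  have hnum : ‖gt (Ψ (fun j => (z j).im)) z‖ ≤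
      A * (∫ ξ : EuclideanSpace ℝ ι, dec ξ) * (1 + ‖fun j => (z j).im‖) ^ N := by
    unfold gt
    refine (norm_integral_le_of_norm_le
      (g := fun ξ => A * (1 + ‖fun j => (z j).im‖) ^ N * dec ξ)
      (integrable_dec.const_mul _) (Filter.Eventually.of_forall fun ξ => ?_)).trans ?_
    · rw [norm_mul, norm_expfac]
      exact hb (fun j => (z j).re) (Metric.ball_subset_ball (min_le_left _ _) hz) _ ξ
    · rw [integral_const_mul]
      apply le_of_eq; ring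
  calc ‖gt (Ψ (fun j => (z j).im)) z‖ / ‖gaus (fun j => (z j).im) z‖
      ≤ ‖gt (Ψ (fun j => (z j).im)) z‖ := div_le_self (norm_nonneg _) hg
    _ ≤ _ := hnum

end Pool.Agent.TubeDS
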