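import Pool.Agent.TubeDS.Identity

set_option autoImplicit false
set_option linter.unusedSectionVars false

open MeasureTheory Filter Topology

namespace Pool.Agent.TubeDS

variable {ι : Type*} [Fintype ι]

/-- the point `x + i y` -/
noncomputable def pt (x y : ι → ℝ) : ι → ℂ := fun j => (x j : ℂ) + (y j : ℂ) * Complex.I

@[simp] theorem pt_re (x y : ι → ℝ) (j : ι) : (pt x y j).re = x j := by simp [pt]
@[simp] theorem pt_im (x y : ι → ℝ) (j : ι) : (pt x y j).im = y j := by simp [pt]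

theorem pt_self (z : ι → ℂ) : pt (fun j => (z j).re) (fun j => (z j).im) = z := by
  funext j; simp [pt, Complex.re_add_im]

theorem pt_mem_tube {Ω : Set (ι → ℝ)} {x y : ι → ℝ} : pt x y ∈ tube Ω ↔ x ∈ Ω := by
  simp [tube]

theorem one_add_pow_mul_exp_le (n : ℕ) {r : ℝ} (hr : 0 ≤ r) :
    (1 + r) ^ n * Real.exp (-r ^ 2) ≤ n.factorial * Real.exp 2 := by
  have h1 : (1 + r) ^ n / n.factorial ≤ Real.exp (1 + r) :=
    Real.pow_div_factorial_le_exp (1 + r) (by linarith) n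
  have h2 : (1 + r) ^ n ≤ n.factorial * Real.exp (1 + r) := by
    rw [div_le_iff₀ (by positivity)] at h1
    linarith
  calc (1 + r) ^ n * Real.exp (-r ^ 2)
      ≤ (n.factorial * Real.exp (1 + r)) * Real.exp (-r ^ 2) := by gcongr
    _ = n.factorial * Real.exp (1 + r - r ^ 2) := by
        rw [mul_assoc, ← Real.exp_add]; ring_nf
    _ ≤ n.factorial * Real.exp 2 := by
        gcongr
        nlinarith [sq_nonneg (r - 1)]

theorem one_add_pow_mul_exp_linear_le (n : ℕ) {a r : ℝ} (ha : 0 < a) (hr : 0 ≤ r) :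
    (1 + r) ^ n * Real.exp (-(a * r)) ≤ n.factorial * Real.exp a / a ^ n := by
  have h1 : (a * (1 + r)) ^ n / n.factorial ≤ Real.exp (a * (1 + r)) :=
    Real.pow_div_factorial_le_exp (a * (1 + r)) (by positivity) n
  have h2 : (a * (1 + r)) ^ n ≤ n.factorial * Real.exp (a * (1 + r)) := by
    rw [div_le_iff₀ (by positivity)] at h1
    linarith
  rw [mul_pow] at h2
  rw [le_div_iff₀ (by positivity)]
  calc (1 + r) ^ n * Real.exp (-(a * r)) * a ^ n
      = (a ^ n * (1 + r) ^ n) * Real.exp (-(a * r)) := by ring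
    _ ≤ (n.factorial * Real.exp (a * (1 + r))) * Real.exp (-(a * r)) := by gcongr
    _ = n.factorial * Real.exp a := by
        rw [mul_assoc, ← Real.exp_add]; ring_nf

/-- the fixed decay exponent -/
noncomputable def dexp (ι : Type*) [Fintype ι] : ℕ := Fintype.card ι + 1

/-- the fixed integrable decay function -/
noncomputable def dec (y : EuclideanSpace ℝ ι) : ℝ := ((1 + ‖y‖) ^ (dexp ι))⁻¹

theorem dec_pos (y : EuclideanSpace ℝ ι) : 0 < dec y := by
  unfold dec; positivity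

theorem dec_nonneg (y : EuclideanSpace ℝ ι) : 0 ≤ dec y := (dec_pos y).le

theorem integrable_dec : Integrable (dec : EuclideanSpace ℝ ι → ℝ) := by
  have h := integrable_one_add_norm (E := EuclideanSpace ℝ ι) (μ := volume)
    (r := (dexp ι : ℝ)) (by simp [dexp, finrank_euclideanSpace])
  refine h.congr (Filter.Eventually.of_forall fun y => ?_)
  simp only [dec]
  rw [Real.rpow_neg (by positivity), Real.rpow_natCast]

theorem dec_add_le (y a : EuclideanSpace ℝ ι) :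
    dec (y + a) ≤ (1 + ‖a‖) ^ (dexp ι) * dec y := by
  unfold dec
  have h1 : 1 + ‖y‖ ≤ (1 + ‖a‖) * (1 + ‖y + a‖) := by
    have : ‖y‖ ≤ ‖y + a‖ + ‖a‖ := by
      calc ‖y‖ = ‖(y + a) - a‖ := by simp
        _ ≤ ‖y + a‖ + ‖a‖ := norm_sub_le _ _
    nlinarith [norm_nonneg a, norm_nonneg (y + a)]
  rw [inv_eq_one_div, inv_eq_one_div, mul_one_div, div_le_div_iff₀ (by positivity) (by positivity),
    one_mul, ← mul_pow]
  gcongr

theorem norm_ofLp_le (y : EuclideanSpace ℝ ι) : ‖(fun j => y j : ι → ℝ)‖ ≤ ‖y‖ := by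
  rw [pi_norm_le_iff_of_nonneg (norm_nonneg _)]
  intro j
  exact PiLp.norm_apply_le y j

/-- The Gaussian factor. -/
noncomputable def gaus (y₀ : ι → ℝ) (z : ι → ℂ) : ℂ :=
  Complex.exp (∑ j, (z j - (y₀ j : ℂ) * Complex.I) ^ 2)

theorem differentiable_gaus (y₀ : ι → ℝ) : Differentiable ℂ (gaus y₀) := by
  unfold gaus; fun_prop

theorem norm_gaus (y₀ x y : ι → ℝ) :
    ‖gaus y₀ (pt x y)‖ = Real.exp (∑ j, x j ^ 2 - ∑ j, (y j - y₀ j) ^ 2) := by
  unfold gaus
  rw [Complex.norm_exp, Complex.re_sum, ← Finset.sum_sub_distrib]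
  congr 1
  refine Finset.sum_congr rfl fun j _ => ?_
  have : (pt x y j - (y₀ j : ℂ) * Complex.I) = (x j : ℂ) + ((y j - y₀ j : ℝ) : ℂ) * Complex.I := by
    simp [pt]; ring
  rw [this, sq, Complex.mul_re]
  simp
  ring

theorem gaus_ne_zero (y₀ : ι → ℝ) (z : ι → ℂ) : gaus y₀ z ≠ 0 := Complex.exp_ne_zero _

/-- Main decay bound. -/
theorem gaus_bound {Ω : Set (ι → ℝ)} {G : (ι → ℂ) → ℂ} (hG : PolyBdd Ω G) {K : Set (ι → ℝ)}
    (hKΩ : K ⊆ Ω) (hK : IsCompact K) :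
    ∃ (C : ℝ) (N : ℕ), 0 ≤ C ∧ ∀ x ∈ K, ∀ (y₀ : ι → ℝ) (y : EuclideanSpace ℝ ι),
      ‖G (pt x y) * gaus y₀ (pt x y)‖ ≤ C * (1 + ‖y₀‖) ^ N * dec (y - WithLp.toLp 2 y₀) := by
  obtain ⟨C, N, hC⟩ := hG K hKΩ hK
  -- bound for sum of squares on K
  obtain ⟨B, hB⟩ : ∃ B, ∀ x ∈ K, ∑ j, x j ^ 2 ≤ B := by
    have hcont : Continuous (fun x : ι → ℝ => ∑ j, x j ^ 2) := by fun_prop
    obtain ⟨B, hB⟩ := (hK.image hcont).bddAbove
    exact ⟨B, fun x hx => hB ⟨x, hx, rfl⟩⟩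
  set n := N + dexp ι with hn
  refine ⟨|C| * (Real.exp B * (n.factorial * Real.exp 2)), N, by positivity, ?_⟩
  intro x hx y₀ y
  set u : EuclideanSpace ℝ ι := y - WithLp.toLp 2 y₀ with hu
  set r : ℝ := ‖u‖ with hr
  have hr0 : 0 ≤ r := norm_nonneg _
  have hsum : ∑ j, (y j - y₀ j) ^ 2 = r ^ 2 := by
    rw [hr, EuclideanSpace.norm_sq_eq]
    refine Finset.sum_congr rfl fun j _ => ?_
    simp [hu]
  have hGz : ‖G (pt x y)‖ ≤ |C| * (1 + ‖(fun j => y j : ι → ℝ)‖) ^ N := by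
    have := hC (pt x y) (by simpa using hx)
    simp only [pt_im] at this
    refine this.trans ?_
    gcongr
    exact le_abs_self C
  have hy : 1 + ‖(fun j => y j : ι → ℝ)‖ ≤ (1 + ‖y₀‖) * (1 + r) := by
    have h1 : (fun j => y j : ι → ℝ) = (fun j => u j) + y₀ := by
      funext j; simp [hu]
    have h2 : ‖(fun j => y j : ι → ℝ)‖ ≤ r + ‖y₀‖ := by
      rw [h1]
      exact (norm_add_le _ _).trans (by gcongr; exact norm_ofLp_le u)
    nlinarith [norm_nonneg y₀]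
  rw [norm_mul, norm_gaus, hsum]
  have hexp : Real.exp (∑ j, x j ^ 2 - r ^ 2) ≤ Real.exp B * Real.exp (-r ^ 2) := by
    rw [← Real.exp_add]
    gcongr
    have := hB x hx
    linarith
  have hkey := one_add_pow_mul_exp_le n hr0
  have hdec : Real.exp (-r ^ 2) * (1 + r) ^ N ≤ (n.factorial * Real.exp 2) * dec u := by
    unfold dec
    rw [← hr, ← div_eq_mul_inv, le_div_iff₀ (by positivity)]
    calc Real.exp (-r ^ 2) * (1 + r) ^ N * (1 + r) ^ dexp ι = (1 + r) ^ n * Real.exp (-r ^ 2) := by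
          rw [hn, pow_add]; ring
      _ ≤ _ := hkey
  calc ‖G (pt x y)‖ * Real.exp (∑ j, x j ^ 2 - r ^ 2)
      ≤ (|C| * (1 + ‖(fun j => y j : ι → ℝ)‖) ^ N) * (Real.exp B * Real.exp (-r ^ 2)) := by
        gcongr
    _ ≤ (|C| * ((1 + ‖y₀‖) * (1 + r)) ^ N) * (Real.exp B * Real.exp (-r ^ 2)) := by
        gcongr
    _ = |C| * Real.exp B * (1 + ‖y₀‖) ^ N * (Real.exp (-r ^ 2) * (1 + r) ^ N) := by
        rw [mul_pow]; ring
    _ ≤ |C| * Real.exp B * (1 + ‖y₀‖) ^ N * ((n.factorial * Real.exp 2) * dec u) := by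
        gcongr
    _ = _ := by ring

end Pool.Agent.TubeDS
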