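import Pool.Agent.TubeDS.Bochner

set_option autoImplicit false
set_option linter.unusedSectionVars false

open MeasureTheory Filter Topology FourierTransform

namespace Pool.Agent.TubeDS

variable {ι : Type*} [Fintype ι]

/-- slice function -/
noncomputable def gsl (G : (ι → ℂ) → ℂ) (y₀ x : ι → ℝ) (y : EuclideanSpace ℝ ι) : ℂ :=
  G (pt x y) * gaus y₀ (pt x y)

theorem gsl_continuous {Ω : Set (ι → ℝ)} {G : (ι → ℂ) → ℂ}
    (hd : DifferentiableOn ℂ G (tube Ω)) (y₀ : ι → ℝ) {x : ι → ℝ} (hx : x ∈ Ω) :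
    Continuous (gsl G y₀ x) := by
  unfold gsl
  refine Continuous.mul ?_ ((differentiable_gaus y₀).continuous.comp (continuous_pt x))
  exact hd.continuousOn.comp_continuous (continuous_pt x) fun y => pt_mem_tube.mpr hx

theorem gsl_integrable {Ω : Set (ι → ℝ)} {G : (ι → ℂ) → ℂ}
    (hd : DifferentiableOn ℂ G (tube Ω)) (hG : PolyBdd Ω G) (y₀ : ι → ℝ) {x : ι → ℝ} (hx : x ∈ Ω) :
    Integrable (gsl G y₀ x) := by
  obtain ⟨C, N, hC0, hC⟩ := gaus_bound hG (Set.singleton_subset_iff.mpr hx) isCompact_singleton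
  refine Integrable.mono' (g := fun y => C * (1 + ‖y₀‖) ^ N * dec (y - WithLp.toLp 2 y₀)) ?_
    (gsl_continuous hd y₀ hx).aestronglyMeasurable
    (Filter.Eventually.of_forall fun y => hC x (Set.mem_singleton _) y₀ y)
  exact (integrable_dec.comp_sub_right _).const_mul _

theorem inner_eq_sum (y ξ : EuclideanSpace ℝ ι) : inner ℝ y ξ = ∑ j, y j * ξ j := by
  rw [PiLp.inner_apply]
  refine Finset.sum_congr rfl fun j _ => ?_
  simp [mul_comm]

theorem ker_pt (ξ : EuclideanSpace ℝ ι) (x : ι → ℝ) (y : EuclideanSpace ℝ ι) :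
    ker ξ (pt x y) = Complex.exp (-(2 * Real.pi * ∑ j, x j * ξ j : ℝ)) *
      Complex.exp (↑(-2 * Real.pi * inner ℝ y ξ) * Complex.I) := by
  unfold ker
  rw [← Complex.exp_add, inner_eq_sum]
  congr 1
  push_cast
  simp only [pt, Finset.mul_sum, Finset.sum_mul, add_mul, Finset.sum_add_distrib, ← Finset.sum_neg_distrib,
    mul_add]
  rw [neg_add, ← Finset.sum_neg_distrib, ← Finset.sum_neg_distrib]
  congr 1
  refine Finset.sum_congr rfl fun j _ => ?_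
  ring

theorem Itr_eq_fourier (G : (ι → ℂ) → ℂ) (y₀ : ι → ℝ) (ξ : EuclideanSpace ℝ ι) (x : ι → ℝ) :
    Itr G y₀ ξ x = Complex.exp (-(2 * Real.pi * ∑ j, x j * ξ j : ℝ)) * 𝓕 (gsl G y₀ x) ξ := by
  unfold Itr
  rw [Real.fourier_eq', ← integral_const_mul]
  refine integral_congr_ae (Filter.Eventually.of_forall fun y => ?_)
  simp only [hfun, smul_eq_mul]
  rw [ker_pt, gsl]
  ring

theorem fourier_eq_Itr (G : (ι → ℂ) → ℂ) (y₀ : ι → ℝ) (ξ : EuclideanSpace ℝ ι) (x : ι → ℝ) :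
    𝓕 (gsl G y₀ x) ξ = Complex.exp ((2 * Real.pi * ∑ j, x j * ξ j : ℝ)) * Itr G y₀ ξ x := by
  rw [Itr_eq_fourier, ← mul_assoc, ← Complex.exp_add]
  simp

theorem Itr_continuous {Ω : Set (ι → ℝ)} {G : (ι → ℂ) → ℂ}
    (hd : DifferentiableOn ℂ G (tube Ω)) (hG : PolyBdd Ω G) (y₀ : ι → ℝ) {x : ι → ℝ} (hx : x ∈ Ω) :
    Continuous (fun ξ : EuclideanSpace ℝ ι => Itr G y₀ ξ x) := by
  simp_rw [Itr_eq_fourier]
  refine Continuous.mul (by fun_prop) ?_
  exact VectorFourier.fourierIntegral_continuous Real.continuous_fourierChar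
    (by exact (innerSL ℝ).continuous₂) (gsl_integrable hd hG y₀ hx)

theorem Itr_bound {Ω : Set (ι → ℝ)} {G : (ι → ℂ) → ℂ} (hG : PolyBdd Ω G) {x : ι → ℝ} (hx : x ∈ Ω) :
    ∃ (A : ℝ) (N : ℕ), 0 ≤ A ∧ ∀ (y₀ : ι → ℝ) (ξ : EuclideanSpace ℝ ι),
      ‖Itr G y₀ ξ x‖ ≤ A * (1 + ‖y₀‖) ^ N * Real.exp (-(2 * Real.pi * ∑ j, x j * ξ j)) := by
  obtain ⟨C, N, hC0, hC⟩ := gaus_bound hG (Set.singleton_subset_iff.mpr hx) isCompact_singleton
  refine ⟨C * ∫ y : EuclideanSpace ℝ ι, dec y, N,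
    mul_nonneg hC0 (integral_nonneg fun y => dec_nonneg y), ?_⟩
  intro y₀ ξ
  unfold Itr
  have h1 : ∀ y : EuclideanSpace ℝ ι, ‖hfun G y₀ ξ (pt x y)‖ ≤
      (Real.exp (-(2 * Real.pi * ∑ j, x j * ξ j)) * (C * (1 + ‖y₀‖) ^ N)) * dec (y - WithLp.toLp 2 y₀) := by
    intro y
    unfold hfun
    rw [norm_mul, norm_ker]
    calc Real.exp (-(2 * Real.pi * ∑ j, x j * ξ j)) * ‖G (pt x y) * gaus y₀ (pt x y)‖
        ≤ Real.exp (-(2 * Real.pi * ∑ j, x j * ξ j)) *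
          (C * (1 + ‖y₀‖) ^ N * dec (y - WithLp.toLp 2 y₀)) :=
          mul_le_mul_of_nonneg_left (hC x (Set.mem_singleton _) y₀ y) (Real.exp_nonneg _)
      _ = _ := by ring
  refine (norm_integral_le_of_norm_le (((integrable_dec.comp_sub_right _).const_mul _))
    (Filter.Eventually.of_forall h1)).trans ?_
  rw [integral_const_mul, integral_sub_right_eq_self (fun y : EuclideanSpace ℝ ι => dec y)]
  apply le_of_eq; ring

/-- Fourier inversion: recover `g` from its transform. -/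
theorem inversion {Ω : Set (ι → ℝ)} {G : (ι → ℂ) → ℂ} {Ψ : EuclideanSpace ℝ ι → ℂ}
    (hd : DifferentiableOn ℂ G (tube Ω)) (hG : PolyBdd Ω G) (y₀ : ι → ℝ) {x : ι → ℝ} (hx : x ∈ Ω)
    (hΨ : ∀ ξ, Itr G y₀ ξ x = Ψ ξ)
    (hint : Integrable (fun ξ : EuclideanSpace ℝ ι =>
      Complex.exp ((2 * Real.pi * ∑ j, x j * ξ j : ℝ)) * Ψ ξ)) (y : EuclideanSpace ℝ ι) :
    gsl G y₀ x y = ∫ ξ : EuclideanSpace ℝ ι,
      Complex.exp (2 * Real.pi * ∑ j, pt x y j * (ξ j : ℂ)) * Ψ ξ := by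
  have hF : 𝓕 (gsl G y₀ x) = fun ξ : EuclideanSpace ℝ ι =>
      Complex.exp ((2 * Real.pi * ∑ j, x j * ξ j : ℝ)) * Ψ ξ := by
    funext ξ
    rw [fourier_eq_Itr, hΨ]
  have hinv := (gsl_continuous hd y₀ hx).fourierInv_fourier_eq (gsl_integrable hd hG y₀ hx)
    (by rw [hF]; exact hint)
  have := congrFun hinv y
  rw [← this, Real.fourierInv_eq', hF]
  refine integral_congr_ae (Filter.Eventually.of_forall fun ξ => ?_)
  simp only [smul_eq_mul]
  rw [← mul_assoc, ← Complex.exp_add]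
  congr 2
  rw [inner_eq_sum]
  push_cast
  simp only [pt, Finset.mul_sum, Finset.sum_mul, ← Finset.sum_add_distrib]
  refine Finset.sum_congr rfl fun j _ => ?_
  ring

/-- The set of real vectors at which a family of functions decays uniformly. -/
def goodSet (Ψ : (ι → ℝ) → EuclideanSpace ℝ ι → ℂ) : Set (ι → ℝ) :=
  {x | ∃ (A : ℝ) (N : ℕ), 0 ≤ A ∧ ∀ (y₀ : ι → ℝ) (ξ : EuclideanSpace ℝ ι),
      ‖Ψ y₀ ξ‖ ≤ A * (1 + ‖y₀‖) ^ N * Real.exp (-(2 * Real.pi * ∑ j, x j * ξ j))}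

theorem convex_goodSet (Ψ : (ι → ℝ) → EuclideanSpace ℝ ι → ℂ) : Convex ℝ (goodSet Ψ) := by
  rintro x ⟨A, N, hA, hx⟩ x' ⟨A', N', hA', hx'⟩ a b ha hb hab
  refine ⟨max A A', max N N', le_max_of_le_left hA, fun y₀ ξ => ?_⟩
  set M : ℝ := max A A' * (1 + ‖y₀‖) ^ (max N N') with hM
  have hM0 : 0 ≤ M := by positivity
  have h1 : ‖Ψ y₀ ξ‖ ≤ M * Real.exp (-(2 * Real.pi * ∑ j, x j * ξ j)) := by
    refine (hx y₀ ξ).trans ?_
    rw [hM]
    have : (1 + ‖y₀‖) ^ N ≤ (1 + ‖y₀‖) ^ (max N N') :=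
      pow_le_pow_right₀ (by linarith [norm_nonneg y₀]) (le_max_left _ _)
    have h2 : A ≤ max A A' := le_max_left _ _
    gcongr
  have h2 : ‖Ψ y₀ ξ‖ ≤ M * Real.exp (-(2 * Real.pi * ∑ j, x' j * ξ j)) := by
    refine (hx' y₀ ξ).trans ?_
    rw [hM]
    have : (1 + ‖y₀‖) ^ N' ≤ (1 + ‖y₀‖) ^ (max N N') :=
      pow_le_pow_right₀ (by linarith [norm_nonneg y₀]) (le_max_right _ _)
    have h2 : A' ≤ max A A' := le_max_right _ _
    gcongr
  have h3 : ‖Ψ y₀ ξ‖ = ‖Ψ y₀ ξ‖ ^ a * ‖Ψ y₀ ξ‖ ^ b := by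
    rw [← Real.rpow_add_of_nonneg (norm_nonneg _) ha hb, hab, Real.rpow_one]
  rw [h3]
  calc ‖Ψ y₀ ξ‖ ^ a * ‖Ψ y₀ ξ‖ ^ b
      ≤ (M * Real.exp (-(2 * Real.pi * ∑ j, x j * ξ j))) ^ a *
        (M * Real.exp (-(2 * Real.pi * ∑ j, x' j * ξ j))) ^ b := by
        gcongr
    _ = M ^ a * M ^ b * (Real.exp (-(2 * Real.pi * ∑ j, x j * ξ j)) ^ a *
        Real.exp (-(2 * Real.pi * ∑ j, x' j * ξ j)) ^ b) := by
        rw [Real.mul_rpow hM0 (Real.exp_nonneg _), Real.mul_rpow hM0 (Real.exp_nonneg _)]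
        ring
    _ = M * Real.exp (-(2 * Real.pi * ∑ j, (a • x + b • x') j * ξ j)) := by
        rw [← Real.rpow_add_of_nonneg hM0 ha hb, hab, Real.rpow_one, ← Real.exp_mul, ← Real.exp_mul,
          ← Real.exp_add]
        congr 2
        simp only [Pi.add_apply, Pi.smul_apply, smul_eq_mul, add_mul, Finset.sum_add_distrib, mul_add,
          Finset.mul_sum, Finset.sum_mul, ← Finset.sum_neg_distrib]
        rw [neg_add, ← Finset.sum_neg_distrib, ← Finset.sum_neg_distrib]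
        congr 1 <;>
        · refine Finset.sum_congr rfl fun j _ => ?_
          ring

theorem norm_le_sum_abs (ξ : EuclideanSpace ℝ ι) : ‖ξ‖ ≤ ∑ j, |ξ j| := by
  rw [EuclideanSpace.norm_eq]
  apply Real.sqrt_le_iff.mpr
  refine ⟨Finset.sum_nonneg fun j _ => abs_nonneg _, ?_⟩
  have : ∀ j, ‖ξ j‖ ^ 2 = |ξ j| ^ 2 := fun j => by rw [Real.norm_eq_abs]
  simp_rw [this]
  exact Finset.sum_sq_le_sq_sum_of_nonneg fun j _ => abs_nonneg _

/-- Uniform decay near an interior point of the good set. -/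
theorem goodSet_local {Ψ : (ι → ℝ) → EuclideanSpace ℝ ι → ℂ} {C : Set (ι → ℝ)} (hC : IsOpen C)
    (hCg : C ⊆ goodSet Ψ) {x : ι → ℝ} (hx : x ∈ C) :
    ∃ ε > 0, ∃ (A : ℝ) (N : ℕ), 0 ≤ A ∧ ∀ x' ∈ Metric.ball x ε, ∀ (y₀ : ι → ℝ) (ξ : EuclideanSpace ℝ ι),
      Real.exp (2 * Real.pi * ∑ j, x' j * ξ j) * ‖Ψ y₀ ξ‖ ≤ A * (1 + ‖y₀‖) ^ N * dec ξ := by
  classical
  obtain ⟨r, hr, hball⟩ := Metric.isOpen_iff.mp hC x hx
  set ε : ℝ := r / 4 with hε
  have hε0 : 0 < ε := by positivity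
  have hv : ∀ s : ι → Bool, (x + fun j => if s j then 2 * ε else -(2 * ε)) ∈ goodSet Ψ := by
    intro s
    apply hCg
    apply hball
    rw [mem_ball_iff_norm, add_sub_cancel_left]
    refine lt_of_le_of_lt ((pi_norm_le_iff_of_nonneg (show (0:ℝ) ≤ 2 * ε by positivity)).mpr ?_)
      (show 2 * ε < r by rw [hε]; linarith)
    intro j
    by_cases h : s j
    · simp [h, abs_of_pos hε0]
    · simp [h, abs_of_pos hε0]
  choose A N hA hAN using hv
  set AA : ℝ := ∑ s, A s with hAA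
  set NN : ℕ := ∑ s, N s with hNN
  have hAle : ∀ s, A s ≤ AA := fun s => Finset.single_le_sum (f := A) (fun i _ => hA i) (Finset.mem_univ s)
  have hNle : ∀ s, N s ≤ NN := fun s => Finset.single_le_sum (f := N) (fun i _ => Nat.zero_le _) (Finset.mem_univ s)
  have hAA0 : 0 ≤ AA := Finset.sum_nonneg fun i _ => hA i
  set a : ℝ := 2 * Real.pi * ε with ha
  have ha0 : 0 < a := by positivity
  refine ⟨ε, hε0, AA * ((dexp ι).factorial * Real.exp a / a ^ dexp ι), NN, by positivity, ?_⟩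
  intro x' hx' y₀ ξ
  set s : ι → Bool := fun j => decide (0 ≤ ξ j) with hs
  have hbd := hAN s y₀ ξ
  set S : ℝ := ∑ j, |ξ j| with hS
  have hsum1 : ∑ j, (x + fun j => if s j then 2 * ε else -(2 * ε)) j * ξ j = (∑ j, x j * ξ j) + 2 * ε * S := by
    rw [hS, Finset.mul_sum, ← Finset.sum_add_distrib]
    refine Finset.sum_congr rfl fun j _ => ?_
    by_cases h : 0 ≤ ξ j
    · simp [hs, h, abs_of_nonneg h]; ring
    · simp only [hs, h, Pi.add_apply, decide_false, Bool.false_eq_true, ite_false]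
      rw [abs_of_neg (not_le.mp h)]; ring
  have hsum2 : ∑ j, x' j * ξ j ≤ (∑ j, x j * ξ j) + ε * S := by
    rw [hS, Finset.mul_sum, ← Finset.sum_add_distrib]
    refine Finset.sum_le_sum fun j _ => ?_
    have h1 : |x' j - x j| ≤ ε := by
      have := norm_le_pi_norm (x' - x) j
      have h2 : ‖x' - x‖ < ε := by rw [← dist_eq_norm]; exact Metric.mem_ball.mp hx'
      rw [Pi.sub_apply, Real.norm_eq_abs] at this
      linarith
    have h2 : (x' j - x j) * ξ j ≤ ε * |ξ j| := by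
      calc (x' j - x j) * ξ j ≤ |(x' j - x j) * ξ j| := le_abs_self _
        _ = |x' j - x j| * |ξ j| := abs_mul _ _
        _ ≤ ε * |ξ j| := by gcongr
    linarith
  have hS0 : 0 ≤ S := Finset.sum_nonneg fun j _ => abs_nonneg _
  have hnS : ‖ξ‖ ≤ S := norm_le_sum_abs ξ
  rw [hsum1] at hbd
  have hexp : Real.exp (2 * Real.pi * ∑ j, x' j * ξ j) *
      Real.exp (-(2 * Real.pi * ((∑ j, x j * ξ j) + 2 * ε * S))) ≤ Real.exp (-(a * ‖ξ‖)) := by
    rw [← Real.exp_add]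
    apply Real.exp_le_exp.mpr
    have h1 : 2 * Real.pi * ∑ j, x' j * ξ j ≤ 2 * Real.pi * ((∑ j, x j * ξ j) + ε * S) := by
      gcongr
    have h2 : a * ‖ξ‖ ≤ a * S := by gcongr
    rw [ha] at h2 ⊢
    nlinarith
  have hlin := one_add_pow_mul_exp_linear_le (dexp ι) ha0 (norm_nonneg ξ)
  have hdec : Real.exp (-(a * ‖ξ‖)) ≤ ((dexp ι).factorial * Real.exp a / a ^ dexp ι) * dec ξ := by
    unfold dec
    rw [← div_eq_mul_inv, le_div_iff₀ (by positivity)]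
    linarith
  calc Real.exp (2 * Real.pi * ∑ j, x' j * ξ j) * ‖Ψ y₀ ξ‖
      ≤ Real.exp (2 * Real.pi * ∑ j, x' j * ξ j) * (A s * (1 + ‖y₀‖) ^ N s *
        Real.exp (-(2 * Real.pi * ((∑ j, x j * ξ j) + 2 * ε * S)))) := by gcongr
    _ = (A s * (1 + ‖y₀‖) ^ N s) * (Real.exp (2 * Real.pi * ∑ j, x' j * ξ j) *
        Real.exp (-(2 * Real.pi * ((∑ j, x j * ξ j) + 2 * ε * S)))) := by ring
    _ ≤ (AA * (1 + ‖y₀‖) ^ NN) * Real.exp (-(a * ‖ξ‖)) := by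
        have h1 := hAle s
        have h2 : (1 + ‖y₀‖) ^ N s ≤ (1 + ‖y₀‖) ^ NN :=
          pow_le_pow_right₀ (by linarith [norm_nonneg y₀]) (hNle s)
        have h3 := hA s
        gcongr
    _ ≤ (AA * (1 + ‖y₀‖) ^ NN) * (((dexp ι).factorial * Real.exp a / a ^ dexp ι) * dec ξ) := by
        gcongr
    _ = _ := by ring

end Pool.Agent.TubeDS
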