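import Pool.Agent.TubeDS.Param

set_option autoImplicit false

open MeasureTheory Filter Topology

namespace Pool.Agent.TubeDS

variable {ι : Type*} [Fintype ι]

/-- The tube over a set of real vectors. -/
def tube (Ω : Set (ι → ℝ)) : Set (ι → ℂ) := {z | (fun j => (z j).re) ∈ Ω}

/-- Polynomial boundedness in vertical strips. -/
def PolyBdd (Ω : Set (ι → ℝ)) (G : (ι → ℂ) → ℂ) : Prop :=
  ∀ K ⊆ Ω, IsCompact K → ∃ (C : ℝ) (N : ℕ), ∀ z : ι → ℂ,
    (fun j => (z j).re) ∈ K → ‖G z‖ ≤ C * (1 + ‖fun j => (z j).im‖) ^ N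

theorem continuous_rePart : Continuous (fun (z : ι → ℂ) (j : ι) => (z j).re) := by fun_prop

theorem continuous_imPart : Continuous (fun (z : ι → ℂ) (j : ι) => (z j).im) := by fun_prop

theorem isOpen_tube {Ω : Set (ι → ℝ)} (hΩ : IsOpen Ω) : IsOpen (tube Ω) :=
  hΩ.preimage continuous_rePart

/-- Identity theorem in a tube over a convex set. -/
theorem eqOn_tube_of_convex {C Ω : Set (ι → ℝ)} (hC : IsOpen C) (hconv : Convex ℝ C)
    (hΩ : IsOpen Ω) (hΩC : Ω ⊆ C) (hne : Ω.Nonempty) {f g : (ι → ℂ) → ℂ}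
    (hf : DifferentiableOn ℂ f (tube C)) (hg : DifferentiableOn ℂ g (tube C))
    (hfg : Set.EqOn f g (tube Ω)) : Set.EqOn f g (tube C) := by
  intro z hz
  obtain ⟨x₁, hx₁⟩ := hne
  set v : ι → ℝ := fun j => (z j).re - x₁ j with hv
  set L : ℂ → (ι → ℂ) := fun t j => ((x₁ j : ℂ) + (z j).im * Complex.I) + t * (v j : ℂ) with hL
  have hLdiff : Differentiable ℂ L := by
    rw [hL]; fun_prop
  have hLre : ∀ t : ℂ, (fun j => (L t j).re) = x₁ + t.re • v := by
    intro t; funext j; simp [hL]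
  set U : Set ℂ := {t | x₁ + t.re • v ∈ C} with hU
  have hUopen : IsOpen U := hC.preimage (by fun_prop)
  have hUpre : IsPreconnected U := by
    refine Convex.isPreconnected ?_
    intro a ha b hb α β hα hβ hαβ
    have h1 : x₁ + (α • a + β • b).re • v = α • (x₁ + a.re • v) + β • (x₁ + b.re • v) := by
      have : x₁ = (α + β) • x₁ := by rw [hαβ, one_smul]
      simp only [Complex.add_re, Complex.real_smul, Complex.re_ofReal_mul]
      conv_lhs => rw [this]
      module
    show x₁ + (α • a + β • b).re • v ∈ C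
    rw [h1]
    exact hconv ha hb hα hβ hαβ
  have hLmem : ∀ t ∈ U, L t ∈ tube C := by
    intro t ht
    show (fun j => (L t j).re) ∈ C
    rw [hLre t]; exact ht
  have hfa : AnalyticOnNhd ℂ (fun t => f (L t)) U := by
    apply DifferentiableOn.analyticOnNhd _ hUopen
    exact hf.comp hLdiff.differentiableOn hLmem
  have hga : AnalyticOnNhd ℂ (fun t => g (L t)) U := by
    apply DifferentiableOn.analyticOnNhd _ hUopen
    exact hg.comp hLdiff.differentiableOn hLmem
  have h0 : (0 : ℂ) ∈ U := by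
    show x₁ + (0 : ℂ).re • v ∈ C
    simpa using hΩC hx₁
  have h1 : (1 : ℂ) ∈ U := by
    show x₁ + (1 : ℂ).re • v ∈ C
    have : x₁ + (1 : ℂ).re • v = fun j => (z j).re := by
      funext j; simp [hv]
    rw [this]; exact hz
  have hev : (fun t => f (L t)) =ᶠ[𝓝 0] (fun t => g (L t)) := by
    have hopen : IsOpen {t : ℂ | x₁ + t.re • v ∈ Ω} := hΩ.preimage (by fun_prop)
    have hmem : (0 : ℂ) ∈ {t : ℂ | x₁ + t.re • v ∈ Ω} := by
      show x₁ + (0 : ℂ).re • v ∈ Ω
      simpa using hx₁
    filter_upwards [hopen.mem_nhds hmem] with t ht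
    apply hfg
    show (fun j => (L t j).re) ∈ Ω
    rw [hLre t]; exact ht
  have := hfa.eqOn_of_preconnected_of_eventuallyEq hga hUpre h0 hev h1
  have hL1 : L 1 = z := by
    funext j
    simp only [hL, hv]
    push_cast
    rw [one_mul]
    have := Complex.re_add_im (z j)
    linear_combination this
  simpa [hL1] using this

end Pool.Agent.TubeDS
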